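import Pool.Agent.Q278.KM.G

/-!
# Convergence of all joint moments (helper278)
-/

set_option autoImplicit false
set_option linter.unusedSectionVars false

namespace Pool.Agent.Q278.KM

open Filter Topology MeasureTheory ProbabilityTheory
open Pool.Agent.Q278.MC
open scoped BoundedContinuousFunction

section ui

variable {E : Type*} [NormedAddCommGroup E] [InnerProductSpace ℝ E] [FiniteDimensional ℝ E]
  [MeasurableSpace E] [BorelSpace E]

/-- truncation -/
noncomputable def tr (R x : ℝ) : ℝ := max (-R) (min R x)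

lemma tr_cont (R : ℝ) : Continuous (tr R) := by unfold tr; fun_prop

lemma tr_abs {R : ℝ} (hR : 0 ≤ R) (x : ℝ) : |tr R x| ≤ R := by
  unfold tr
  rw [abs_le]
  exact ⟨le_max_left _ _, max_le (by linarith) (min_le_left _ _)⟩

lemma tr_sub {R : ℝ} (hR : 0 < R) (x : ℝ) : |x - tr R x| ≤ x ^ 2 / R := by
  rw [le_div_iff₀ hR]
  unfold tr
  rcases le_total x (-R) with h | h
  · rw [min_eq_right (by linarith), max_eq_left h, abs_of_nonpos (by linarith)]
    nlinarith
  · rcases le_total x R with h' | h'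
    · rw [min_eq_right h', max_eq_right h, sub_self, abs_zero, zero_mul]
      positivity
    · rw [min_eq_left h', max_eq_right (by linarith), abs_of_nonneg (by linarith)]
      nlinarith

/-- convergence in law and bounded second moments give convergence of the means -/
theorem ui_lim {X : ℕ → ℝ → E} {T : ℕ → ℝ} (G : ProbabilityMeasure E) {φ : E → ℝ}
    (hφ : Continuous φ)
    (hev : ∀ᶠ n in atTop, 0 < T n ∧ ContinuousOn (X n) (Set.Icc (T n) (2 * T n)))
    (h : Tendsto (fun n => pw (X n) (T n)) atTop (𝓝 G)) {C : ℝ}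
    (hC : ∀ᶠ n in atTop, (1 / T n) * ∫ t in (T n)..(2 * T n), φ (X n t) ^ 2 ≤ C)
    (hG : Integrable (fun x => φ x ^ 2) (G : Measure E)) :
    Tendsto (fun n => (1 / T n) * ∫ t in (T n)..(2 * T n), φ (X n t)) atTop
      (𝓝 (∫ x, φ x ∂(G : Measure E))) := by
  have hG0 : 0 ≤ ∫ x, φ x ^ 2 ∂(G : Measure E) := integral_nonneg fun x => by positivity
  set D := |C| + (∫ x, φ x ^ 2 ∂(G : Measure E)) + 1 with hD
  have hD0 : 0 < D := by positivity
  have hG1 : Integrable φ (G : Measure E) := by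
    have hb : Integrable (fun x => (1 : ℝ) + φ x ^ 2) (G : Measure E) :=
      (integrable_const 1).add hG
    refine hb.mono' hφ.aestronglyMeasurable (Eventually.of_forall fun x => ?_)
    rw [Real.norm_eq_abs]
    nlinarith [sq_nonneg (|φ x| - 1), sq_abs (φ x), abs_nonneg (φ x)]
  rw [Metric.tendsto_atTop']
  intro ε hε
  set R := 2 * D / ε + 1 with hR
  have hR0 : 0 < R := by positivity
  have hDR : D / R < ε / 2 := by
    rw [div_lt_iff₀ hR0, hR]
    field_simp
    nlinarith
  set ψ : E →ᵇ ℝ := BoundedContinuousFunction.ofNormedAddCommGroup (fun x => tr R (φ x))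
    ((tr_cont R).comp hφ) R (fun x => tr_abs hR0.le _) with hψ
  have hψv : ∀ x, ψ x = tr R (φ x) := fun x => rfl
  have hm : ∀ᶠ n in atTop, 0 < T n ∧ AEMeasurable (X n) (volume.restrict (Set.Icc (T n) (2 * T n))) :=
    hev.mono fun n hn => ⟨hn.1, hn.2.aemeasurable measurableSet_Icc⟩
  have h1 := weak_lim_int G hm h ψ
  have h2 := (Metric.tendsto_nhds.1 h1) (ε / 2) (by positivity)
  have h5 : |(∫ x, φ x ∂(G : Measure E)) - ∫ x, ψ x ∂(G : Measure E)| ≤
      (∫ x, φ x ^ 2 ∂(G : Measure E)) / R := by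
    rw [← integral_sub hG1 (ψ.integrable _)]
    calc |∫ x, (φ x - ψ x) ∂(G : Measure E)| ≤ ∫ x, |φ x - ψ x| ∂(G : Measure E) :=
          abs_integral_le_integral_abs
      _ ≤ ∫ x, φ x ^ 2 / R ∂(G : Measure E) :=
          integral_mono ((hG1.sub (ψ.integrable _)).abs) (hG.div_const R) fun x => by
            simp only [hψv]
            exact tr_sub hR0 _
      _ = _ := integral_div _ _
  obtain ⟨N, hN⟩ := eventually_atTop.1 ((hC.and hev).and h2)
  refine ⟨N, fun n hn => ?_⟩
  obtain ⟨⟨k1, k2, k3⟩, k4⟩ := hN n hn.le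
  have hle : T n ≤ 2 * T n := by linarith
  have hcφ : ContinuousOn (fun t => φ (X n t)) (Set.Icc (T n) (2 * T n)) :=
    hφ.comp_continuousOn k3
  have hcψ : ContinuousOn (fun t => ψ (X n t)) (Set.Icc (T n) (2 * T n)) :=
    ψ.continuous.comp_continuousOn k3
  have i1 : IntervalIntegrable (fun t => φ (X n t)) volume (T n) (2 * T n) := by
    apply ContinuousOn.intervalIntegrable
    rwa [Set.uIcc_of_le hle]
  have i2 : IntervalIntegrable (fun t => ψ (X n t)) volume (T n) (2 * T n) := by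
    apply ContinuousOn.intervalIntegrable
    rwa [Set.uIcc_of_le hle]
  have i3 : IntervalIntegrable (fun t => φ (X n t) ^ 2) volume (T n) (2 * T n) := by
    apply ContinuousOn.intervalIntegrable
    rw [Set.uIcc_of_le hle]
    exact hcφ.pow 2
  have h6 : |(1 / T n) * (∫ t in (T n)..(2 * T n), φ (X n t)) -
      (1 / T n) * ∫ t in (T n)..(2 * T n), ψ (X n t)| ≤ C / R := by
    rw [← mul_sub, ← intervalIntegral.integral_sub i1 i2, abs_mul, abs_of_pos (by positivity)]
    have h7 : |∫ t in (T n)..(2 * T n), (φ (X n t) - ψ (X n t))| ≤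
        ∫ t in (T n)..(2 * T n), φ (X n t) ^ 2 / R := by
      refine (intervalIntegral.abs_integral_le_integral_abs hle).trans ?_
      refine intervalIntegral.integral_mono_on hle (i1.sub i2).abs (i3.div_const R) fun t _ => ?_
      simp only [hψv]
      exact tr_sub hR0 _
    rw [intervalIntegral.integral_div] at h7
    calc 1 / T n * _ ≤ 1 / T n * ((∫ t in (T n)..(2 * T n), φ (X n t) ^ 2) / R) :=
          mul_le_mul_of_nonneg_left h7 (by positivity)
      _ = (1 / T n * ∫ t in (T n)..(2 * T n), φ (X n t) ^ 2) / R := by ring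
      _ ≤ _ := div_le_div_of_nonneg_right k1 hR0.le
  rw [Real.dist_eq] at k4 ⊢
  have h8 : C / R ≤ |C| / R := div_le_div_of_nonneg_right (le_abs_self C) hR0.le
  have h9 : |C| / R + (∫ x, φ x ^ 2 ∂(G : Measure E)) / R ≤ D / R := by
    rw [← add_div]
    exact div_le_div_of_nonneg_right (by rw [hD]; linarith) hR0.le
  have e : (1 / T n) * (∫ t in (T n)..(2 * T n), φ (X n t)) - ∫ x, φ x ∂(G : Measure E) =
      ((1 / T n) * (∫ t in (T n)..(2 * T n), φ (X n t)) -
        (1 / T n) * ∫ t in (T n)..(2 * T n), ψ (X n t)) +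
      ((1 / T n) * (∫ t in (T n)..(2 * T n), ψ (X n t)) - ∫ x, ψ x ∂(G : Measure E)) -
      ((∫ x, φ x ∂(G : Measure E)) - ∫ x, ψ x ∂(G : Measure E)) := by ring
  rw [e]
  have h10 := (abs_sub (((1 / T n) * (∫ t in (T n)..(2 * T n), φ (X n t)) -
        (1 / T n) * ∫ t in (T n)..(2 * T n), ψ (X n t)) +
      ((1 / T n) * (∫ t in (T n)..(2 * T n), ψ (X n t)) - ∫ x, ψ x ∂(G : Measure E)))
      ((∫ x, φ x ∂(G : Measure E)) - ∫ x, ψ x ∂(G : Measure E)))
  have h11 := abs_add_le ((1 / T n) * (∫ t in (T n)..(2 * T n), φ (X n t)) -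
        (1 / T n) * ∫ t in (T n)..(2 * T n), ψ (X n t))
      ((1 / T n) * (∫ t in (T n)..(2 * T n), ψ (X n t)) - ∫ x, ψ x ∂(G : Measure E))
  linarith

end ui

lemma norm_pow_le {k : ℕ} (x : EuclideanSpace ℝ (Fin k)) (N : ℕ) :
    ‖x‖ ^ (2 * (N + 1)) ≤ (k : ℝ) ^ N * ∑ j, |x.ofLp j| ^ (2 * (N + 1)) := by
  have h1 : ‖x‖ ^ 2 = ∑ j, |x.ofLp j| ^ 2 := by
    rw [EuclideanSpace.norm_sq_eq]
    rfl
  have h2 := sum_pow_le Finset.univ (fun _ : Fin k => (1 : ℝ)) (fun j => |x.ofLp j| ^ 2)
    (fun _ _ => zero_le_one) (fun j _ => by positivity) N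
  simp only [one_mul, Finset.sum_const, Finset.card_univ, Fintype.card_fin, nsmul_eq_mul,
    mul_one] at h2
  rw [pow_mul, h1]
  refine h2.trans (le_of_eq ?_)
  congr 1
  exact Finset.sum_congr rfl fun j _ => by rw [← pow_mul]

/-- polynomial growth -/
lemma growth {A y u : ℝ} (hA : 0 ≤ A) (hy : 0 ≤ y) {N : ℕ} (h : |u| ≤ A * (1 + y) ^ N) :
    u ^ 2 ≤ A ^ 2 * 4 ^ N * (2 + y ^ (2 * (N + 1))) := by
  have h1 : u ^ 2 ≤ (A * (1 + y) ^ N) ^ 2 := by
    rw [← sq_abs]
    exact pow_le_pow_left₀ (abs_nonneg _) h 2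
  have h2 : (1 + y) ^ (2 * N) ≤ 4 ^ N * (2 + y ^ (2 * (N + 1))) := by
    rcases le_total y 1 with h3 | h3
    · have h4 : (1 + y) ^ (2 * N) ≤ 2 ^ (2 * N) := pow_le_pow_left₀ (by linarith) (by linarith) _
      have e : (2 : ℝ) ^ (2 * N) = 4 ^ N := by rw [pow_mul]; norm_num
      rw [e] at h4
      have h5 : (0 : ℝ) < 4 ^ N := by positivity
      have h6 : 0 ≤ y ^ (2 * (N + 1)) := by positivity
      nlinarith
    · have h4 : (1 + y) ^ (2 * N) ≤ (2 * y) ^ (2 * N) := pow_le_pow_left₀ (by linarith) (by linarith) _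
      have e : (2 * y) ^ (2 * N) = 4 ^ N * y ^ (2 * N) := by
        rw [mul_pow, pow_mul]; norm_num
      rw [e] at h4
      have h5 : (0 : ℝ) < 4 ^ N := by positivity
      have h6 : y ^ (2 * N) ≤ y ^ (2 * (N + 1)) := pow_le_pow_right₀ h3 (by omega)
      nlinarith
  calc u ^ 2 ≤ (A * (1 + y) ^ N) ^ 2 := h1
    _ = A ^ 2 * (1 + y) ^ (2 * N) := by ring
    _ ≤ A ^ 2 * (4 ^ N * (2 + y ^ (2 * (N + 1)))) := mul_le_mul_of_nonneg_left h2 (by positivity)
    _ = _ := by ring

/-- **the means of all continuous functions of polynomial growth converge** -/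
theorem joint_poly {k : ℕ} {f : Fin k → ℝ → ℝ} (hf : ∀ j, CC (fc (f j))) {T L : ℕ → ℝ}
    (hT : Tendsto T atTop atTop)
    (hL : Tendsto L atTop atTop) (hLT : Tendsto (fun n => L n / Real.log (T n)) atTop (𝓝 0))
    {φ : EuclideanSpace ℝ (Fin k) → ℝ} (hφc : Continuous φ) {A : ℝ} {N : ℕ}
    (hφ : ∀ x, |φ x| ≤ A * (1 + ‖x‖) ^ N) :
    Tendsto (fun n => (1 / T n) * ∫ t in (T n)..(2 * T n), φ (vc f (L n) (T n) t)) atTop
      (𝓝 (∫ x, φ x ∂(multivariateGaussian 0 (cm f)))) := by
  have hA : 0 ≤ A := by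
    have h1 := (abs_nonneg _).trans (hφ 0)
    rw [norm_zero, add_zero, one_pow, mul_one] at h1
    exact h1
  have hj := joint hf hT hL hLT
  obtain ⟨R, hR0, hR, -⟩ := st_lc hf
  have hev := evs hT hL hLT R
  have hcont : ∀ᶠ n in atTop, 0 < T n ∧
      ContinuousOn (vc f (L n) (T n)) (Set.Icc (T n) (2 * T n)) := by
    filter_upwards [hev] with n hn
    refine ⟨hn.1, ?_⟩
    unfold vc
    refine (PiLp.continuous_toLp 2 _).comp_continuousOn ?_
    exact continuousOn_pi.2 fun j => st_cont (hf j) (hR j) hn.2.2 hn.2.1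
  choose C hC0 hC using fun j => st_mom (hf j) N hT hL hLT
  set D : ℝ := A ^ 2 * 4 ^ N with hD
  have hD0 : 0 ≤ D := by positivity
  have hb : ∀ᶠ n in atTop, (1 / T n) * ∫ t in (T n)..(2 * T n), φ (vc f (L n) (T n) t) ^ 2 ≤
      D * (2 + (k : ℝ) ^ N * ∑ j, C j) := by
    filter_upwards [hcont, eventually_all.2 hC, hev] with n h1 h2 h3
    have hle : T n ≤ 2 * T n := by linarith [h1.1]
    have hs : ∀ j, ContinuousOn (st (f j) (L n) (T n)) (Set.Icc (T n) (2 * T n)) :=
      fun j => st_cont (hf j) (hR j) h3.2.2 h3.2.1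
    have hsj : ∀ j, IntervalIntegrable (fun t => |st (f j) (L n) (T n) t| ^ (2 * (N + 1))) volume
        (T n) (2 * T n) := by
      intro j
      apply ContinuousOn.intervalIntegrable
      rw [Set.uIcc_of_le hle]
      exact (hs j).abs.pow _
    have hsum : IntervalIntegrable (fun t => (k : ℝ) ^ N *
        ∑ j, |st (f j) (L n) (T n) t| ^ (2 * (N + 1))) volume (T n) (2 * T n) := by
      apply ContinuousOn.intervalIntegrable
      rw [Set.uIcc_of_le hle]
      exact continuousOn_const.mul (continuousOn_finsetSum _ fun j _ => (hs j).abs.pow _)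
    have h4 : ∫ t in (T n)..(2 * T n), φ (vc f (L n) (T n) t) ^ 2 ≤
        ∫ t in (T n)..(2 * T n), D * (2 + (k : ℝ) ^ N *
          ∑ j, |st (f j) (L n) (T n) t| ^ (2 * (N + 1))) := by
      refine intervalIntegral.integral_mono_on hle ?_ ?_ fun t _ => ?_
      · apply ContinuousOn.intervalIntegrable
        rw [Set.uIcc_of_le hle]
        exact (hφc.comp_continuousOn h1.2).pow 2
      · exact (intervalIntegrable_const.add hsum).const_mul _
      · refine (growth hA (norm_nonneg _) (hφ (vc f (L n) (T n) t))).trans ?_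
        refine mul_le_mul_of_nonneg_left ?_ hD0
        have := norm_pow_le (vc f (L n) (T n) t) N
        simp only [vc] at this ⊢
        linarith
    have h5 : ∫ t in (T n)..(2 * T n), D * (2 + (k : ℝ) ^ N *
          ∑ j, |st (f j) (L n) (T n) t| ^ (2 * (N + 1))) =
        D * (2 * T n + (k : ℝ) ^ N *
          ∑ j, ∫ t in (T n)..(2 * T n), |st (f j) (L n) (T n) t| ^ (2 * (N + 1))) := by
      rw [intervalIntegral.integral_const_mul, intervalIntegral.integral_add
        intervalIntegrable_const hsum, intervalIntegral.integral_const,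
        intervalIntegral.integral_const_mul, intervalIntegral.integral_finsetSum fun j _ => hsj j]
      simp only [smul_eq_mul]
      ring
    have hTn := h1.1
    calc (1 / T n) * ∫ t in (T n)..(2 * T n), φ (vc f (L n) (T n) t) ^ 2 ≤
        (1 / T n) * (D * (2 * T n + (k : ℝ) ^ N *
          ∑ j, ∫ t in (T n)..(2 * T n), |st (f j) (L n) (T n) t| ^ (2 * (N + 1)))) :=
          mul_le_mul_of_nonneg_left (h4.trans h5.le) (by positivity)
      _ = D * (2 + (k : ℝ) ^ N *
          ∑ j, (1 / T n) * ∫ t in (T n)..(2 * T n), |st (f j) (L n) (T n) t| ^ (2 * (N + 1))) := by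
          rw [← Finset.mul_sum]
          field_simp
      _ ≤ _ := by
          have := Finset.sum_le_sum (s := Finset.univ) fun (j : Fin k) _ => h2 j
          gcongr
  have hGi : Integrable (fun x => φ x ^ 2)
      ((gP f : ProbabilityMeasure (EuclideanSpace ℝ (Fin k))) : Measure _) := by
    rw [gP_coe]
    have hm : MemLp id ((2 * (N + 1) : ℕ) : ENNReal) (multivariateGaussian 0 (cm f)) :=
      IsGaussian.memLp_id _ _ (ENNReal.natCast_ne_top _)
    have h1 := hm.integrable_norm_pow' (p := 2 * (N + 1))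
    refine ((((integrable_const (2 : ℝ)).add h1).const_mul D)).mono'
      (hφc.pow 2).aestronglyMeasurable (Eventually.of_forall fun x => ?_)
    rw [Real.norm_of_nonneg (by positivity)]
    exact growth hA (norm_nonneg _) (hφ x)
  have h := ui_lim (gP f) hφc hcont hj hb hGi
  rw [gP_coe] at h
  exact h

/-- **all joint moments converge** -/
theorem joint_mom {k : ℕ} {f : Fin k → ℝ → ℝ} (hf : ∀ j, CC (fc (f j))) {T L : ℕ → ℝ}
    (hT : Tendsto T atTop atTop)
    (hL : Tendsto L atTop atTop) (hLT : Tendsto (fun n => L n / Real.log (T n)) atTop (𝓝 0)) :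
    Tendsto (fun n => (1 / T n) * ∫ t in (T n)..(2 * T n), ∏ j, st (f j) (L n) (T n) t) atTop
      (𝓝 (∫ x, ∏ j, x.ofLp j ∂(multivariateGaussian 0 (cm f)))) := by
  refine joint_poly hf hT hL hLT (φ := fun x => ∏ j, x.ofLp j) (by fun_prop) (A := 1) (N := k)
    fun x => ?_
  rw [Finset.abs_prod, one_mul]
  calc ∏ j, |x.ofLp j| ≤ ∏ _j : Fin k, (1 + ‖x‖) := by
        refine Finset.prod_le_prod (fun j _ => abs_nonneg _) fun j _ => ?_
        have := PiLp.norm_apply_le x j
        rw [Real.norm_eq_abs] at this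
        linarith
    _ = _ := by rw [Finset.prod_const, Finset.card_univ, Fintype.card_fin]

end Pool.Agent.Q278.KM
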