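import Pool.Agent.Q278.MC.B

/-!
# High moments of Dirichlet polynomials over prime powers (helper278)
-/

set_option autoImplicit false

namespace Pool.Agent.Q278.KM

open Filter Topology Finset MeasureTheory Complex
open Pool.Agent.Q278.MC

lemma SS_zero (c : ArithmeticFunction ℂ) (N : ℕ) : SS c N 0 = 1 := by
  unfold SS
  simp

lemma SS_le {c : ArithmeticFunction ℂ} {P : Finset ℕ} {N : ℕ} (h : Pc c P N) (m : ℕ) :
    SS c N m ≤ m.factorial * VV c P ^ m := by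
  have hV : 0 ≤ VV c P := Finset.sum_nonneg fun _ _ => sq_nonneg _
  induction m with
  | zero => rw [SS_zero]; simp
  | succ m ih =>
    refine (SS_upper h m).trans ?_
    rw [Nat.factorial_succ, pow_succ]
    push_cast
    calc ((m : ℝ) + 1) * (VV c P * SS c N m) ≤ ((m : ℝ) + 1) * (VV c P * (m.factorial * VV c P ^ m)) := by
          gcongr
      _ = _ := by ring

/-- the moments of a polynomial over the primes -/
theorem dp_mom {c : ArithmeticFunction ℂ} {P : Finset ℕ} {N : ℕ} (h : Pc c P N) (m : ℕ)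
    {T1 T2 : ℝ} (hT : T1 ≤ T2) :
    ∫ t in T1..T2, ‖DP c N t‖ ^ (2 * m) ≤
      ((T2 - T1) + 8 * (N : ℝ) ^ m * (1 + Real.log ((N : ℝ) ^ m))) * (m.factorial * VV c P ^ m) := by
  have e1 : ∀ t : ℝ, ‖DP c N t‖ ^ (2 * m) = ‖DP ⇑(c ^ m) (N ^ m) t‖ ^ 2 := by
    intro t
    rw [← DP_pow_ext h m (N ^ m) le_rfl t, norm_pow, ← pow_mul, mul_comm]
  simp_rw [e1]
  refine (mean_sq (N ^ m) T1 T2 hT ⇑(c ^ m)).trans ?_
  have h2 := SS_le h m
  unfold SS at h2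
  have h3 : 0 ≤ Real.log ((N ^ m : ℕ) : ℝ) := Real.log_natCast_nonneg _
  have h4 : (0 : ℝ) ≤ ((N ^ m : ℕ) : ℝ) := Nat.cast_nonneg _
  refine (mul_le_mul_of_nonneg_left h2 ?_).trans (le_of_eq ?_)
  · have : 0 ≤ T2 - T1 := by linarith
    positivity
  · push_cast
    ring

/-- the sum over the squares of primes -/
theorem dp_sq (r : ℕ → ℂ) (Y : ℕ) (m : ℕ) {T1 T2 : ℝ} (hT : T1 ≤ T2) :
    ∫ t in T1..T2, ‖∑ p ∈ (Icc 1 Y).filter Nat.Prime, r (p ^ 2) * ((p ^ 2 : ℕ) : ℂ) ^ (-(t : ℂ) * I)‖ ^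
      (2 * m) ≤ ((T2 - T1) + 8 * (Y : ℝ) ^ m * (1 + Real.log ((Y : ℝ) ^ m))) *
        (m.factorial * (∑ p ∈ (Icc 1 Y).filter Nat.Prime, ‖r (p ^ 2)‖ ^ 2) ^ m) := by
  set c : ArithmeticFunction ℂ := ⟨fun n => if n.Prime ∧ n ≤ Y then r (n ^ 2) else 0,
    by simp [Nat.not_prime_zero]⟩ with hc
  have hcv : ∀ n, c n = if n.Prime ∧ n ≤ Y then r (n ^ 2) else 0 := fun n => rfl
  have hP : Pc c ((Icc 1 Y).filter Nat.Prime) Y := by
    refine ⟨fun p hp => (Finset.mem_filter.1 hp).2, fun p hp =>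
      (Finset.mem_Icc.1 (Finset.mem_filter.1 hp).1).2, fun n hn => ?_⟩
    rw [hcv, if_neg]
    rintro ⟨h1, h2⟩
    exact hn (Finset.mem_filter.2 ⟨Finset.mem_Icc.2 ⟨h1.one_le, h2⟩, h1⟩)
  have e1 : ∀ t : ℝ, ∑ p ∈ (Icc 1 Y).filter Nat.Prime, r (p ^ 2) * ((p ^ 2 : ℕ) : ℂ) ^ (-(t : ℂ) * I) =
      DP c Y (2 * t) := by
    intro t
    unfold DP
    rw [Finset.sum_filter]
    refine Finset.sum_congr rfl fun p hp => ?_
    rw [Finset.mem_Icc] at hp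
    rw [hcv]
    by_cases h : p.Prime
    · rw [if_pos h, if_pos ⟨h, hp.2⟩]
      have hp0 : (p : ℂ) ≠ 0 := by exact_mod_cast h.ne_zero
      have e2 : ((p ^ 2 : ℕ) : ℂ) ^ (-(t : ℂ) * I) = (p : ℂ) ^ (-((2 * t : ℝ) : ℂ) * I) := by
        rw [sq, Nat.cast_mul, Complex.natCast_mul_natCast_cpow, ← Complex.cpow_add _ _ hp0]
        congr 1
        push_cast
        ring
      rw [e2]
    · rw [if_neg h, if_neg (fun h' => h h'.1), zero_mul]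
  simp_rw [e1]
  have h1 := dp_mom hP m (T1 := 2 * T1) (T2 := 2 * T2) (by linarith)
  have h2 : ∫ t in T1..T2, ‖DP c Y (2 * t)‖ ^ (2 * m) =
      2⁻¹ * ∫ t in (2 * T1)..(2 * T2), ‖DP c Y t‖ ^ (2 * m) := by
    rw [intervalIntegral.integral_comp_mul_left (fun t => ‖DP c Y t‖ ^ (2 * m)) (two_ne_zero),
      smul_eq_mul]
  rw [h2]
  have h3 : VV c ((Icc 1 Y).filter Nat.Prime) = ∑ p ∈ (Icc 1 Y).filter Nat.Prime, ‖r (p ^ 2)‖ ^ 2 := by
    unfold VV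
    refine Finset.sum_congr rfl fun p hp => ?_
    rw [hcv, if_pos ⟨(Finset.mem_filter.1 hp).2, (Finset.mem_Icc.1 (Finset.mem_filter.1 hp).1).2⟩]
  rw [h3] at h1
  set S := ∑ p ∈ (Icc 1 Y).filter Nat.Prime, ‖r (p ^ 2)‖ ^ 2 with hS
  have hS0 : 0 ≤ S := Finset.sum_nonneg fun _ _ => sq_nonneg _
  have h4 : 0 ≤ Real.log ((Y : ℝ) ^ m) := by
    have := Real.log_natCast_nonneg (Y ^ m)
    rwa [Nat.cast_pow] at this
  have h5 : 0 ≤ (Y : ℝ) ^ m * (1 + Real.log ((Y : ℝ) ^ m)) := by positivity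
  have h6 : 0 ≤ (m.factorial : ℝ) * S ^ m := by positivity
  calc 2⁻¹ * ∫ t in (2 * T1)..(2 * T2), ‖DP c Y t‖ ^ (2 * m) ≤ 2⁻¹ *
        (((2 * T2 - 2 * T1) + 8 * (Y : ℝ) ^ m * (1 + Real.log ((Y : ℝ) ^ m))) * (m.factorial * S ^ m)) :=
        mul_le_mul_of_nonneg_left h1 (by norm_num)
    _ = ((T2 - T1) + 4 * ((Y : ℝ) ^ m * (1 + Real.log ((Y : ℝ) ^ m)))) * (m.factorial * S ^ m) := by ring
    _ ≤ _ := by
        refine mul_le_mul_of_nonneg_right ?_ h6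
        nlinarith

end Pool.Agent.Q278.KM
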