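import Pool.Agent.Q278.KM.A

/-!
# Cubes and higher powers of primes; the moments of a polynomial over prime powers (helper278)
-/

set_option autoImplicit false

namespace Pool.Agent.Q278.KM

open Filter Topology Finset MeasureTheory Complex
open Pool.Agent.Q278.MC

/-- neither a prime nor the square of a prime -/
def Hi (n : ℕ) : Prop := ¬ n.Prime ∧ ¬ ∃ p : ℕ, p.Prime ∧ n = p ^ 2

open Classical in
lemma pp_bound : ∃ C : ℝ, 0 ≤ C ∧ ∀ X : ℕ,
    ∑ n ∈ (Icc 1 X).filter Hi, ArithmeticFunction.vonMangoldt n * (Real.sqrt n)⁻¹ ≤ C := by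
  have hs : Summable fun n : ℕ => 1 / (n : ℝ) ^ (5 / 4 : ℝ) :=
    Real.summable_one_div_nat_rpow.2 (by norm_num)
  refine ⟨16 * ∑' n : ℕ, 1 / (n : ℝ) ^ (5 / 4 : ℝ), by positivity, fun X => ?_⟩
  set g : ℕ → ℝ := fun n => ArithmeticFunction.vonMangoldt n * (Real.sqrt n)⁻¹ with hg
  have hg0 : ∀ n, 0 ≤ g n := fun n => by
    have := ArithmeticFunction.vonMangoldt_nonneg (n := n)
    simp only [hg]
    positivity
  set Q : Finset (ℕ × ℕ) := ((Icc 1 X).filter Nat.Prime) ×ˢ (Icc 3 X) with hQ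
  have h1 : ∑ n ∈ (Icc 1 X).filter Hi, g n ≤ ∑ n ∈ Q.image (fun x => x.1 ^ x.2), g n := by
    rw [← Finset.sum_filter_ne_zero]
    refine Finset.sum_le_sum_of_subset_of_nonneg ?_ fun _ _ _ => hg0 _
    intro n hn
    rw [Finset.mem_filter, Finset.mem_filter, Finset.mem_Icc] at hn
    obtain ⟨⟨⟨h2, h3⟩, h4, h5⟩, h6⟩ := hn
    have h7 : ArithmeticFunction.vonMangoldt n ≠ 0 := left_ne_zero_of_mul h6
    rw [ne_eq, ArithmeticFunction.vonMangoldt_eq_zero_iff, not_not, isPrimePow_nat_iff] at h7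
    obtain ⟨p, k, hp, hk, hpk⟩ := h7
    rw [Finset.mem_image]
    refine ⟨(p, k), ?_, hpk⟩
    have hk1 : k ≠ 1 := by
      rintro rfl
      rw [pow_one] at hpk
      exact h4 (hpk ▸ hp)
    have hk2 : k ≠ 2 := by
      rintro rfl
      exact h5 ⟨p, hp, hpk.symm⟩
    have hkX : k < n := by
      rw [← hpk]
      exact Nat.lt_pow_self hp.one_lt
    have hpX : p ≤ n := by
      rw [← hpk]
      exact Nat.le_self_pow (by omega) p
    rw [hQ, Finset.mem_product, Finset.mem_filter, Finset.mem_Icc, Finset.mem_Icc]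
    exact ⟨⟨⟨hp.one_le, by omega⟩, hp⟩, by omega, by omega⟩
  have h2 : ∑ n ∈ Q.image (fun x => x.1 ^ x.2), g n = ∑ x ∈ Q, g (x.1 ^ x.2) := by
    refine Finset.sum_image ?_
    rintro ⟨p, k⟩ hx ⟨q, l⟩ hy hxy
    rw [Finset.mem_coe, hQ, Finset.mem_product, Finset.mem_filter, Finset.mem_Icc, Finset.mem_Icc]
      at hx hy
    simp only at hx hy
    have h3 := Nat.Prime.pow_inj' hx.1.2 hy.1.2 (by omega : k ≠ 0) (by omega : l ≠ 0) hxy
    exact Prod.ext h3.1 h3.2
  rw [h2, hQ, Finset.sum_product] at h1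
  refine h1.trans ?_
  have h3 : ∀ p ∈ (Icc 1 X).filter Nat.Prime, ∑ k ∈ Icc 3 X, g (p ^ k) ≤
      16 * (1 / (p : ℝ) ^ (5 / 4 : ℝ)) := by
    intro p hp
    rw [Finset.mem_filter, Finset.mem_Icc] at hp
    have hp2 : 2 ≤ p := hp.2.two_le
    have hp2' : (2 : ℝ) ≤ p := by exact_mod_cast hp2
    have hp0 : (0 : ℝ) < p := by linarith
    set y : ℝ := (Real.sqrt p)⁻¹ with hy
    have hsp : 0 < Real.sqrt p := Real.sqrt_pos.2 hp0
    have hy0 : 0 < y := by positivity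
    have hy1 : y ≤ 3 / 4 := by
      rw [hy, inv_le_comm₀ hsp (by norm_num)]
      rw [Real.le_sqrt (by norm_num) hp0.le]
      norm_num
      linarith
    have e1 : ∀ k ∈ Icc 3 X, g (p ^ k) = Real.log p * y ^ k := by
      intro k hk
      rw [Finset.mem_Icc] at hk
      simp only [hg]
      rw [ArithmeticFunction.vonMangoldt_apply_pow (by omega), ArithmeticFunction.vonMangoldt_apply_prime hp.2,
        hy, inv_pow]
      congr 2
      rw [Nat.cast_pow, Real.sqrt_eq_rpow, Real.sqrt_eq_rpow, ← Real.rpow_natCast, ← Real.rpow_natCast,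
        ← Real.rpow_mul hp0.le, ← Real.rpow_mul hp0.le, mul_comm]
    rw [Finset.sum_congr rfl e1, ← Finset.mul_sum]
    have h4 : ∑ k ∈ Icc 3 X, y ^ k ≤ y ^ 3 * 4 := by
      have h5 := geom_sum_Ico_le_of_lt_one (m := 3) (n := X + 1) hy0.le (by linarith : y < 1)
      have e2 : Ico 3 (X + 1) = Icc 3 X := by
        ext k
        rw [Finset.mem_Ico, Finset.mem_Icc]
        omega
      rw [e2] at h5
      refine h5.trans ?_
      rw [div_le_iff₀ (by linarith)]
      have h6 : 0 < y ^ 3 := by positivity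
      nlinarith
    have h7 : Real.log p ≤ 4 * (p : ℝ) ^ (1 / 4 : ℝ) := by
      have := Real.log_le_rpow_div hp0.le (by norm_num : (0 : ℝ) < 1 / 4)
      linarith
    have h8 : y ^ 3 = (p : ℝ) ^ (-(3 / 2) : ℝ) := by
      rw [hy, Real.sqrt_eq_rpow, ← Real.rpow_neg hp0.le, ← Real.rpow_natCast, ← Real.rpow_mul hp0.le]
      norm_num
    have hlp : 0 ≤ Real.log p := Real.log_nonneg (by linarith)
    calc Real.log p * ∑ k ∈ Icc 3 X, y ^ k ≤ (4 * (p : ℝ) ^ (1 / 4 : ℝ)) * (y ^ 3 * 4) :=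
          mul_le_mul h7 h4 (Finset.sum_nonneg fun _ _ => by positivity) (by positivity)
      _ = 16 * ((p : ℝ) ^ (1 / 4 : ℝ) * (p : ℝ) ^ (-(3 / 2) : ℝ)) := by rw [h8]; ring
      _ = 16 * (1 / (p : ℝ) ^ (5 / 4 : ℝ)) := by
          have e3 : 1 / (p : ℝ) ^ (5 / 4 : ℝ) = (p : ℝ) ^ (-(5 / 4) : ℝ) := by
            rw [Real.rpow_neg hp0.le, one_div]
          rw [e3, ← Real.rpow_add hp0]
          norm_num
  refine (Finset.sum_le_sum h3).trans ?_
  rw [← Finset.mul_sum]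
  refine mul_le_mul_of_nonneg_left ?_ (by norm_num)
  exact hs.sum_le_tsum _ fun n _ => by positivity

open Classical in
/-- the moments of a polynomial over prime powers -/
theorem pp_mom {r : ℕ → ℂ} {X : ℕ} {V R : ℝ}
    (hV : ∑ n ∈ Icc 1 X, (if Hi n then 0 else ‖r n‖ ^ 2) ≤ V)
    (hR : ∑ n ∈ (Icc 1 X).filter Hi, ‖r n‖ ≤ R) (m : ℕ) {T1 T2 : ℝ} (hT : T1 ≤ T2) :
    ∫ t in T1..T2, ‖DP r X t‖ ^ (2 * m) ≤ 3 ^ (2 * m) *
      (2 * (((T2 - T1) + 8 * (X : ℝ) ^ m * (1 + Real.log ((X : ℝ) ^ m))) * (m.factorial * V ^ m)) +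
        (T2 - T1) * R ^ (2 * m)) := by
  set P := (Icc 1 X).filter Nat.Prime with hP
  set Y := Nat.sqrt X with hY
  set P2 := (Icc 1 Y).filter Nat.Prime with hP2
  -- the three parts
  set c : ArithmeticFunction ℂ := ⟨fun n => if n.Prime ∧ n ≤ X then r n else 0,
    by simp [Nat.not_prime_zero]⟩ with hc
  have hcv : ∀ n, c n = if n.Prime ∧ n ≤ X then r n else 0 := fun n => rfl
  have hPc : Pc c P X := by
    refine ⟨fun p hp => (Finset.mem_filter.1 hp).2, fun p hp =>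
      (Finset.mem_Icc.1 (Finset.mem_filter.1 hp).1).2, fun n hn => ?_⟩
    rw [hcv, if_neg]
    rintro ⟨h1, h2⟩
    exact hn (Finset.mem_filter.2 ⟨Finset.mem_Icc.2 ⟨h1.one_le, h2⟩, h1⟩)
  have hsq : ∀ {M : Type} [AddCommMonoid M] (F : ℕ → M),
      ∑ n ∈ (Icc 1 X).filter (fun n => ∃ p : ℕ, p.Prime ∧ n = p ^ 2), F n =
      ∑ p ∈ P2, F (p ^ 2) := by
    intro M _ F
    symm
    refine Finset.sum_bij (fun p _ => p ^ 2) (fun p hp => ?_) (fun p _ q _ h => ?_) (fun n hn => ?_)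
      (fun _ _ => rfl)
    · rw [hP2, Finset.mem_filter, Finset.mem_Icc] at hp
      rw [Finset.mem_filter, Finset.mem_Icc]
      exact ⟨⟨Nat.one_le_pow _ _ hp.1.1, Nat.le_sqrt'.1 hp.1.2⟩, p, hp.2, rfl⟩
    · exact Nat.pow_left_injective (by norm_num) h
    · rw [Finset.mem_filter, Finset.mem_Icc] at hn
      obtain ⟨⟨h1, h2⟩, p, hp, rfl⟩ := hn
      refine ⟨p, ?_, rfl⟩
      rw [hP2, Finset.mem_filter, Finset.mem_Icc]
      exact ⟨⟨hp.one_le, Nat.le_sqrt'.2 h2⟩, hp⟩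
  have hdec : ∀ F : ℕ → ℂ, ∑ n ∈ Icc 1 X, F n = ∑ n ∈ P, F n + ∑ p ∈ P2, F (p ^ 2) +
      ∑ n ∈ (Icc 1 X).filter Hi, F n := by
    intro F
    rw [← hsq, ← Finset.sum_filter_add_sum_filter_not (Icc 1 X) Nat.Prime F, add_assoc]
    congr 1
    rw [← Finset.sum_filter_add_sum_filter_not ((Icc 1 X).filter fun n => ¬ n.Prime)
      (fun n => ∃ p : ℕ, p.Prime ∧ n = p ^ 2) F, Finset.filter_filter, Finset.filter_filter]
    congr 1
    · refine Finset.sum_congr (Finset.filter_congr fun n _ => ?_) fun _ _ => rfl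
      constructor
      · rintro ⟨_, h⟩; exact h
      · rintro ⟨p, hp, rfl⟩
        exact ⟨Nat.Prime.not_prime_pow le_rfl, p, hp, rfl⟩
    · exact Finset.sum_congr (Finset.filter_congr fun n _ => Iff.rfl) fun _ _ => rfl
  have hV1 : VV c P ≤ V := by
    refine le_trans ?_ hV
    unfold VV
    rw [hP, Finset.sum_filter]
    refine Finset.sum_le_sum fun n hn => ?_
    rw [Finset.mem_Icc] at hn
    by_cases h : n.Prime
    · rw [if_pos h, hcv, if_pos ⟨h, hn.2⟩, if_neg (fun h' => h'.1 h)]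
    · rw [if_neg h]
      split_ifs <;> positivity
  have hV2 : ∑ p ∈ P2, ‖r (p ^ 2)‖ ^ 2 ≤ V := by
    refine le_trans ?_ hV
    rw [← hsq (fun n => ‖r n‖ ^ 2), Finset.sum_filter]
    refine Finset.sum_le_sum fun n hn => ?_
    by_cases h : ∃ p : ℕ, p.Prime ∧ n = p ^ 2
    · rw [if_pos h, if_neg (fun h' => h'.2 h)]
    · rw [if_neg h]
      split_ifs <;> positivity
  have hV0 : 0 ≤ V := le_trans (Finset.sum_nonneg fun n _ => by split_ifs <;> positivity) hV
  have hR0 : 0 ≤ R := le_trans (Finset.sum_nonneg fun n _ => norm_nonneg _) hR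
  set A : ℝ → ℂ := fun t => DP c X t with hA
  set B : ℝ → ℂ := fun t => ∑ p ∈ P2, r (p ^ 2) * ((p ^ 2 : ℕ) : ℂ) ^ (-(t : ℂ) * I) with hB
  have hpt : ∀ t, ‖DP r X t‖ ≤ ‖A t‖ + ‖B t‖ + R := by
    intro t
    have e1 : DP r X t = A t + B t + ∑ n ∈ (Icc 1 X).filter Hi, r n * (n : ℂ) ^ (-(t : ℂ) * I) := by
      simp only [hA, hB]
      unfold DP
      rw [hdec]
      congr 2
      rw [hP, Finset.sum_filter]
      refine Finset.sum_congr rfl fun n hn => ?_
      rw [Finset.mem_Icc] at hn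
      rw [hcv]
      by_cases h : n.Prime
      · rw [if_pos h, if_pos ⟨h, hn.2⟩]
      · rw [if_neg h, if_neg (fun h' => h h'.1), zero_mul]
    rw [e1]
    refine (norm_add_le _ _).trans (add_le_add (norm_add_le _ _) ?_)
    refine (norm_sum_le _ _).trans (le_trans (Finset.sum_le_sum fun n hn => ?_) hR)
    rw [norm_mul]
    rw [Finset.mem_filter, Finset.mem_Icc] at hn
    have h0 : 0 < n := hn.1.1
    rw [Complex.norm_natCast_cpow_of_pos h0]
    simp
  have hAc : Continuous A := DP_cont _ _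
  have hBc : Continuous B := by
    simp only [hB]
    refine continuous_finsetSum _ fun p hp => ?_
    rw [hP2, Finset.mem_filter] at hp
    have h0 : ((p ^ 2 : ℕ) : ℂ) ≠ 0 := by
      have := hp.2.ne_zero
      exact_mod_cast pow_ne_zero 2 this
    refine continuous_const.mul ?_
    refine Continuous.const_cpow (by fun_prop) (Or.inl h0)
  have h3 : ∀ t, ‖DP r X t‖ ^ (2 * m) ≤ 3 ^ (2 * m) * (‖A t‖ ^ (2 * m) + ‖B t‖ ^ (2 * m) + R ^ (2 * m)) := by
    intro t
    have h4 : ‖A t‖ + ‖B t‖ + R ≤ 3 * max (max ‖A t‖ ‖B t‖) R := by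
      have g1 := le_max_left (max ‖A t‖ ‖B t‖) R
      have g2 := le_max_right (max ‖A t‖ ‖B t‖) R
      have g3 := le_max_left ‖A t‖ ‖B t‖
      have g4 := le_max_right ‖A t‖ ‖B t‖
      linarith
    refine (pow_le_pow_left₀ (norm_nonneg _) ((hpt t).trans h4) _).trans ?_
    rw [mul_pow]
    refine mul_le_mul_of_nonneg_left ?_ (by positivity)
    have p1 : 0 ≤ ‖A t‖ ^ (2 * m) := by positivity
    have p2 : 0 ≤ ‖B t‖ ^ (2 * m) := by positivity
    have p3 : 0 ≤ R ^ (2 * m) := by positivity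
    rcases max_choice (max ‖A t‖ ‖B t‖) R with h | h
    · rw [h]
      rcases max_choice ‖A t‖ ‖B t‖ with h | h <;> rw [h] <;> linarith
    · rw [h]; linarith
  have h5 := dp_mom hPc m hT
  have h6 := dp_sq r Y m hT
  have hl : 0 ≤ Real.log ((X : ℝ) ^ m) := by
    have := Real.log_natCast_nonneg (X ^ m)
    rwa [Nat.cast_pow] at this
  have hYX : (Y : ℝ) ^ m ≤ (X : ℝ) ^ m := by
    refine pow_le_pow_left₀ (Nat.cast_nonneg _) ?_ _
    exact_mod_cast Nat.sqrt_le_self X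
  have hlY : 0 ≤ Real.log ((Y : ℝ) ^ m) := by
    have := Real.log_natCast_nonneg (Y ^ m)
    rwa [Nat.cast_pow] at this
  have hlYX : Real.log ((Y : ℝ) ^ m) ≤ Real.log ((X : ℝ) ^ m) := by
    by_cases hY0 : (Y : ℝ) ^ m = 0
    · rw [hY0, Real.log_zero]; exact hl
    · exact Real.log_le_log (lt_of_le_of_ne (by positivity) (Ne.symm hY0)) hYX
  set F := (T2 - T1) + 8 * (X : ℝ) ^ m * (1 + Real.log ((X : ℝ) ^ m)) with hF
  have hF0 : 0 ≤ F := by
    have : 0 ≤ T2 - T1 := by linarith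
    positivity
  have h7 : ∫ t in T1..T2, ‖A t‖ ^ (2 * m) ≤ F * (m.factorial * V ^ m) := by
    refine h5.trans (mul_le_mul_of_nonneg_left ?_ hF0)
    refine mul_le_mul_of_nonneg_left ?_ (by positivity)
    exact pow_le_pow_left₀ (Finset.sum_nonneg fun _ _ => sq_nonneg _) hV1 _
  have h8 : ∫ t in T1..T2, ‖B t‖ ^ (2 * m) ≤ F * (m.factorial * V ^ m) := by
    refine h6.trans ?_
    refine mul_le_mul ?_ (mul_le_mul_of_nonneg_left (pow_le_pow_left₀
      (Finset.sum_nonneg fun _ _ => sq_nonneg _) hV2 _) (by positivity)) ?_ hF0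
    · rw [hF]
      gcongr
    · have : 0 ≤ ∑ p ∈ P2, ‖r (p ^ 2)‖ ^ 2 := Finset.sum_nonneg fun _ _ => sq_nonneg _
      positivity
  calc ∫ t in T1..T2, ‖DP r X t‖ ^ (2 * m) ≤
        ∫ t in T1..T2, 3 ^ (2 * m) * (‖A t‖ ^ (2 * m) + ‖B t‖ ^ (2 * m) + R ^ (2 * m)) := by
        refine intervalIntegral.integral_mono_on hT ?_ ?_ fun t _ => h3 t
        · exact ((DP_cont r X).norm.pow _).intervalIntegrable _ _
        · exact Continuous.intervalIntegrable (by fun_prop) _ _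
    _ = 3 ^ (2 * m) * ((∫ t in T1..T2, ‖A t‖ ^ (2 * m)) + (∫ t in T1..T2, ‖B t‖ ^ (2 * m)) +
          (T2 - T1) * R ^ (2 * m)) := by
        rw [intervalIntegral.integral_const_mul, intervalIntegral.integral_add,
          intervalIntegral.integral_add, intervalIntegral.integral_const, smul_eq_mul]
        all_goals exact Continuous.intervalIntegrable (by fun_prop) _ _
    _ ≤ _ := by
        refine mul_le_mul_of_nonneg_left ?_ (by positivity)
        linarith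

end Pool.Agent.Q278.KM
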