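import Pool.Agent.Q278.KM.B
import Pool.Agent.Q278.MC.L

/-!
# The moments of the polynomials of the explicit formula (helper278)
-/

set_option autoImplicit false

namespace Pool.Agent.Q278.KM

open Filter Topology Finset MeasureTheory Complex
open scoped FourierTransform
open Pool.Agent.Q278.MC

variable {f : ℝ → ℂ}

lemma inv_le_one' {x : ℝ} (hx : 1 ≤ x) : x⁻¹ ≤ 1 := inv_le_one_of_one_le₀ hx

/-- the coefficients of the difference polynomial -/
theorem er_coef (hf : CC f) : ∃ K : ℝ, 0 < K ∧ ∀ (a W : ℝ) (X : ℕ), 1 ≤ a → 1 ≤ W → 1 ≤ X →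
    Real.log X ≤ 8 * Real.pi * W * a →
    (∑ n ∈ Icc 1 X, ‖dn f W a n - cn f a X n‖ ^ 2 ≤ K) := by
  obtain ⟨K, hK, h⟩ := dn_close hf
  refine ⟨K * 1000, by positivity, fun a W X ha hW hX hl => ?_⟩
  have ha0 : 0 < a := by linarith
  have hW0 : 0 < W := by linarith
  have hpi := Real.pi_pos
  have hpi4 : Real.pi < 3.15 := Real.pi_lt_d2
  have hlX : 0 ≤ Real.log X := Real.log_natCast_nonneg _
  refine (h a W X ha hW hX).trans ?_
  have haW : 1 ≤ a * W := by nlinarith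
  have h1 : 1 + Real.log X ≤ 27 * (a * W) := by nlinarith
  have h2 : (1 + Real.log X) ^ 2 ≤ (27 * (a * W)) ^ 2 := pow_le_pow_left₀ (by linarith) h1 2
  have h3 : W⁻¹ ^ 8 * (1 + Real.log X) ^ 2 ≤ 729 * a ^ 2 := by
    calc W⁻¹ ^ 8 * (1 + Real.log X) ^ 2 ≤ W⁻¹ ^ 8 * (27 * (a * W)) ^ 2 :=
          mul_le_mul_of_nonneg_left h2 (by positivity)
      _ = 729 * a ^ 2 * W⁻¹ ^ 6 := by field_simp; ring
      _ ≤ 729 * a ^ 2 * 1 := by
          refine mul_le_mul_of_nonneg_left ?_ (by positivity)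
          exact pow_le_one₀ (by positivity) (inv_le_one' hW)
      _ = _ := mul_one _
  have h4 : 1 ≤ a ^ 2 := by nlinarith
  rw [div_mul_eq_mul_div, div_le_iff₀ (by positivity)]
  nlinarith

open Classical in
/-- the coefficients at cubes and higher powers -/
theorem er_hi (hf : CC f) : ∃ K : ℝ, 0 < K ∧ ∀ (a W : ℝ) (X : ℕ), 1 ≤ a → 1 ≤ W →
    ∑ n ∈ (Icc 1 X).filter Hi, ‖dn f W a n - cn f a X n‖ ≤ K := by
  obtain ⟨K1, hK1, h1⟩ := q0_bound hf
  obtain ⟨K2, hK2, h2⟩ := four_bound hf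
  obtain ⟨C, hC, h3⟩ := pp_bound
  refine ⟨(2 * K1 + K2) * C + 1, by positivity, fun a W X ha hW => ?_⟩
  have ha0 : 0 < a := by linarith
  have hW0 : 0 < W := by linarith
  have hpi := Real.pi_gt_three
  have h4 : ∀ n ∈ (Icc 1 X).filter Hi, ‖dn f W a n - cn f a X n‖ ≤
      (2 * K1 + K2) * (ArithmeticFunction.vonMangoldt n * (Real.sqrt n)⁻¹) := by
    intro n hn
    rw [Finset.mem_filter, Finset.mem_Icc] at hn
    have hn1 : (1 : ℝ) ≤ n := by exact_mod_cast hn.1.1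
    have hln : 0 ≤ Real.log n := Real.log_nonneg hn1
    rw [cn_apply, if_neg (fun h => hn.2.1 h.1), sub_zero]
    have hL := ArithmeticFunction.vonMangoldt_nonneg (n := n)
    set g : ℝ := ArithmeticFunction.vonMangoldt n * (Real.sqrt n)⁻¹ with hg
    have hg0 : 0 ≤ g := by positivity
    have e1 : dn f W a n = (g : ℂ) * (((2 * c0 : ℝ) : ℂ) * q0 f W a (Real.log n)) := by
      unfold dn
      rw [← hg]
      push_cast
      ring
    rw [e1, norm_mul, Complex.norm_real, Real.norm_of_nonneg hg0, mul_comm]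
    refine mul_le_mul_of_nonneg_right ?_ hg0
    have h5 := h1 a W (Real.log n) ha hW hln
    have h6 : ‖((1 / (Real.pi * a) : ℝ) : ℂ) * 𝓕 f (Real.log n / (2 * Real.pi * a))‖ ≤ K2 := by
      rw [norm_mul, Complex.norm_real, Real.norm_of_nonneg (by positivity)]
      have h7 : ‖𝓕 f (Real.log n / (2 * Real.pi * a))‖ ≤ K2 :=
        (h2 _).trans (mul_le_of_le_one_right hK2.le (inv_pow_le _))
      have h8 : 1 / (Real.pi * a) ≤ 1 := by
        rw [div_le_one (by positivity)]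
        nlinarith
      calc 1 / (Real.pi * a) * ‖𝓕 f (Real.log n / (2 * Real.pi * a))‖ ≤ 1 * K2 :=
            mul_le_mul h8 h7 (norm_nonneg _) zero_le_one
        _ = _ := one_mul _
    have h9 : K1 / a * (Real.exp (-(Real.log n) ^ 2 / 2) + W⁻¹ ^ 4) ≤ 2 * K1 := by
      have g1 : Real.exp (-(Real.log n) ^ 2 / 2) ≤ 1 :=
        Real.exp_le_one_iff.2 (by nlinarith [sq_nonneg (Real.log n)])
      have g2 : W⁻¹ ^ 4 ≤ 1 := pow_le_one₀ (by positivity) (inv_le_one' hW)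
      have g3 : K1 / a ≤ K1 := div_le_self hK1.le ha
      calc K1 / a * (Real.exp (-(Real.log n) ^ 2 / 2) + W⁻¹ ^ 4) ≤ K1 * (1 + 1) := by
            gcongr
        _ = _ := by ring
    have h10 := norm_le_norm_add_norm_sub'
      (((2 * c0 : ℝ) : ℂ) * q0 f W a (Real.log n))
      (((1 / (Real.pi * a) : ℝ) : ℂ) * 𝓕 f (Real.log n / (2 * Real.pi * a)))
    linarith
  refine (Finset.sum_le_sum h4).trans ?_
  rw [← Finset.mul_sum]
  have := mul_le_mul_of_nonneg_left (h3 X) (by positivity : 0 ≤ 2 * K1 + K2)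
  linarith

open Classical in
/-- the moments of the difference polynomial -/
theorem er_mom (hf : CC f) : ∃ K : ℝ, 1 ≤ K ∧ ∀ (a W : ℝ) (X m : ℕ) (T1 T2 : ℝ), 1 ≤ a → 1 ≤ W →
    1 ≤ X → Real.log X ≤ 8 * Real.pi * W * a → T1 ≤ T2 →
    ∫ t in T1..T2, ‖Er f W a X t‖ ^ (2 * m) ≤ 3 * K ^ m * m.factorial *
      ((T2 - T1) + 8 * (X : ℝ) ^ m * (1 + Real.log ((X : ℝ) ^ m))) := by
  obtain ⟨K1, hK1, h1⟩ := er_coef hf
  obtain ⟨K2, hK2, h2⟩ := er_hi hf
  refine ⟨9 * (K1 + K2 ^ 2) + 1, by nlinarith [sq_nonneg K2], fun a W X m T1 T2 ha hW hX hl hT => ?_⟩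
  have h3 := h1 a W X ha hW hX hl
  have h4 := h2 a W X ha hW
  have h5 : ∑ n ∈ Icc 1 X, (if Hi n then 0 else ‖dn f W a n - cn f a X n‖ ^ 2) ≤ K1 := by
    refine le_trans (Finset.sum_le_sum fun n _ => ?_) h3
    split_ifs
    · positivity
    · exact le_rfl
  have h6 := pp_mom (r := fun n => dn f W a n - cn f a X n) h5 h4 m hT
  unfold Er
  refine h6.trans ?_
  have hlX : 0 ≤ Real.log ((X : ℝ) ^ m) := by
    have := Real.log_natCast_nonneg (X ^ m)
    rwa [Nat.cast_pow] at this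
  have hTT : 0 ≤ T2 - T1 := by linarith
  set F := (T2 - T1) + 8 * (X : ℝ) ^ m * (1 + Real.log ((X : ℝ) ^ m)) with hF
  have hF0 : T2 - T1 ≤ F := by
    rw [hF]
    have : 0 ≤ 8 * (X : ℝ) ^ m * (1 + Real.log ((X : ℝ) ^ m)) := by positivity
    linarith
  have hfac : (1 : ℝ) ≤ m.factorial := by exact_mod_cast Nat.one_le_iff_ne_zero.2 (Nat.factorial_ne_zero m)
  have hF00 : 0 ≤ F := hTT.trans hF0
  calc 3 ^ (2 * m) * (2 * (F * (m.factorial * K1 ^ m)) + (T2 - T1) * K2 ^ (2 * m)) ≤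
        9 ^ m * (2 * (F * (m.factorial * K1 ^ m)) + F * (m.factorial * (K2 ^ 2) ^ m)) := by
        have e1 : (3 : ℝ) ^ (2 * m) = 9 ^ m := by rw [pow_mul]; norm_num
        rw [e1, pow_mul K2]
        refine mul_le_mul_of_nonneg_left ?_ (by positivity)
        have g1 : (T2 - T1) * (K2 ^ 2) ^ m ≤ F * (m.factorial * (K2 ^ 2) ^ m) := by
          refine mul_le_mul hF0 (le_mul_of_one_le_left (by positivity) hfac) (by positivity) hF00
        linarith
    _ = 9 ^ m * (2 * K1 ^ m + (K2 ^ 2) ^ m) * m.factorial * F := by ring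
    _ ≤ 9 ^ m * (2 * (K1 + K2 ^ 2) ^ m + (K1 + K2 ^ 2) ^ m) * m.factorial * F := by
        have g1 : K1 ^ m ≤ (K1 + K2 ^ 2) ^ m :=
          pow_le_pow_left₀ hK1.le (by nlinarith [sq_nonneg K2]) _
        have g2 : (K2 ^ 2) ^ m ≤ (K1 + K2 ^ 2) ^ m :=
          pow_le_pow_left₀ (sq_nonneg _) (by linarith) _
        gcongr
    _ = 3 * (9 * (K1 + K2 ^ 2)) ^ m * m.factorial * F := by rw [mul_pow]; ring
    _ ≤ _ := by
        gcongr
        linarith

end Pool.Agent.Q278.KM
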