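import Pool.Agent.Q278.KM.C
import Pool.Agent.Y750.OM.Cnt

/-!
# The moments of the smooth count of the zeros (helper278)
-/

set_option autoImplicit false

namespace Pool.Agent.Q278.KM

open Filter Topology Finset MeasureTheory
open H370 (Zf mult)
open Pool.Agent.Q278.MC (mz mz_nonneg)

/-- the number of zeros at distance at most `h` -/
noncomputable def Nf (T h t : ℝ) : ℝ :=
  ∑ s ∈ Zf riemannZeta T (2 * T), mz s * (if |s.im - t| ≤ h then 1 else 0)

/-- the smooth count -/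
noncomputable def Sf (T a t : ℝ) : ℝ :=
  ∑ s ∈ Zf riemannZeta T (2 * T), mz s * (1 + (a * (s.im - t)) ^ 2)⁻¹

lemma Nf_nonneg (T h t : ℝ) : 0 ≤ Nf T h t :=
  Finset.sum_nonneg fun s _ => mul_nonneg (mz_nonneg s) (by split_ifs <;> norm_num)

lemma Sf_nonneg (T a t : ℝ) : 0 ≤ Sf T a t :=
  Finset.sum_nonneg fun s _ => mul_nonneg (mz_nonneg s) (by positivity)

lemma Nf_meas (T h : ℝ) : Measurable (Nf T h) := by
  unfold Nf
  refine Finset.measurable_fun_sum _ fun s _ => measurable_const.mul ?_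
  refine Measurable.ite ?_ measurable_const measurable_const
  exact measurableSet_le (by fun_prop) measurable_const

lemma Nf_le (T h t : ℝ) : Nf T h t ≤ ∑ s ∈ Zf riemannZeta T (2 * T), mz s :=
  Finset.sum_le_sum fun s _ => mul_le_of_le_one_right (mz_nonneg s) (by split_ifs <;> norm_num)

/-- the moments of the local count -/
lemma Nf_mom (q : ℕ) (hq : 1 ≤ q) : ∃ C T0 : ℝ, 0 < C ∧ 10 ≤ T0 ∧ ∀ T : ℝ, T0 ≤ T →
    ∫⁻ t : ℝ, ENNReal.ofReal (Nf T (1 / Real.log T) t ^ q) ≤ ENNReal.ofReal (C * T) := by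
  obtain ⟨C, T0, hC, hT0, h⟩ := Pool.Agent.Y750.OM.cntmom q hq
  refine ⟨C, T0, hC, hT0, fun T hT => le_trans (le_of_eq ?_) (h T hT)⟩
  refine lintegral_congr fun t => ?_
  congr 2
  unfold Nf mz
  rw [Finset.sum_filter]
  refine Finset.sum_congr rfl fun s _ => ?_
  split_ifs <;> simp

lemma cauchy_pt {a h x u : ℝ} (ha : 0 < a) (hah : a * h ≤ 1) (hu : |x - u| ≤ h) :
    (1 + (a * x) ^ 2)⁻¹ ≤ 3 * (1 + (a * u) ^ 2)⁻¹ := by
  have h1 : |a * u| ≤ |a * x| + 1 := by
    have e : a * u = a * x - a * (x - u) := by ring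
    rw [e]
    refine (abs_sub _ _).trans ?_
    rw [abs_mul a (x - u), abs_of_pos ha]
    have := mul_le_mul_of_nonneg_left hu ha.le
    linarith
  have h2 : (a * u) ^ 2 ≤ (|a * x| + 1) ^ 2 := by
    rw [← sq_abs (a * u)]
    exact pow_le_pow_left₀ (abs_nonneg _) h1 2
  have h3 : (|a * x| + 1) ^ 2 ≤ 2 * (a * x) ^ 2 + 2 := by
    rw [← sq_abs (a * x)]
    nlinarith [sq_nonneg (|a * x| - 1)]
  rw [← div_eq_mul_inv, le_div_iff₀ (by positivity), inv_mul_le_iff₀ (by positivity)]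
  nlinarith

lemma cint {a : ℝ} (ha : 0 < a) : Integrable (fun u : ℝ => (1 + (a * u) ^ 2)⁻¹) :=
  integrable_inv_one_add_sq.comp_mul_left' ha.ne'

lemma cint_eq {a : ℝ} (ha : 0 < a) : ∫ u : ℝ, (1 + (a * u) ^ 2)⁻¹ = Real.pi / a := by
  rw [Measure.integral_comp_mul_left (fun z : ℝ => (1 + z ^ 2)⁻¹) a, integral_univ_inv_one_add_sq,
    abs_of_pos (by positivity), smul_eq_mul]
  field_simp

lemma cauchy_avg {a h x : ℝ} (ha : 0 < a) (hh : 0 < h) (hah : a * h ≤ 1) :
    (1 + (a * x) ^ 2)⁻¹ ≤ 3 / (2 * h) * ∫ u : ℝ, (1 + (a * u) ^ 2)⁻¹ * (if |x - u| ≤ h then 1 else 0) := by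
  have hi : Integrable (fun u : ℝ => (1 + (a * u) ^ 2)⁻¹ * (if |x - u| ≤ h then 1 else 0)) := by
    refine (cint ha).mono' ?_ (Eventually.of_forall fun u => ?_)
    · refine (by fun_prop : Measurable fun u : ℝ => (1 + (a * u) ^ 2)⁻¹).mul
        (Measurable.ite (measurableSet_le (by fun_prop) measurable_const) measurable_const
          measurable_const) |>.aestronglyMeasurable
    · rw [Real.norm_eq_abs, abs_of_nonneg (by split_ifs <;> positivity)]
      split_ifs
      · simp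
      · simp; positivity
  have h1 : ∫ u : ℝ, (Set.Icc (x - h) (x + h)).indicator (fun _ => (1 + (a * x) ^ 2)⁻¹ / 3) u =
      2 * h * ((1 + (a * x) ^ 2)⁻¹ / 3) := by
    rw [integral_indicator measurableSet_Icc, setIntegral_const, Measure.real, Real.volume_Icc,
      ENNReal.toReal_ofReal (by linarith), smul_eq_mul]
    ring
  have h2 : ∫ u : ℝ, (Set.Icc (x - h) (x + h)).indicator (fun _ => (1 + (a * x) ^ 2)⁻¹ / 3) u ≤
      ∫ u : ℝ, (1 + (a * u) ^ 2)⁻¹ * (if |x - u| ≤ h then 1 else 0) := by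
    refine integral_mono ?_ hi fun u => ?_
    · exact (integrable_indicator_iff measurableSet_Icc).2 (by
        rw [integrableOn_const_iff]
        right
        simp)
    · simp only [Set.indicator, Set.mem_Icc]
      by_cases hu : |x - u| ≤ h
      · have hu' := abs_le.1 hu
        rw [if_pos ⟨by linarith, by linarith⟩, if_pos hu, mul_one]
        have := cauchy_pt ha hah hu
        linarith
      · rw [if_neg (fun h' => hu (abs_le.2 ⟨by linarith [h'.2], by linarith [h'.1]⟩)), if_neg hu, mul_zero]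
  rw [h1] at h2
  rw [div_mul_eq_mul_div, le_div_iff₀ (by positivity)]
  linarith

end Pool.Agent.Q278.KM
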