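import Pool.Agent.Q278.KM.D

/-!
# The moments of the smooth count of the zeros, conclusion (helper278)
-/

set_option autoImplicit false

namespace Pool.Agent.Q278.KM

open Filter Topology Finset MeasureTheory
open H370 (Zf mult)
open Pool.Agent.Q278.MC (mz mz_nonneg)

lemma tangent {x c : ℝ} (hx : 0 ≤ x) (hc : 0 ≤ c) (n : ℕ) :
    c ^ (n + 1) + (n + 1) * c ^ n * (x - c) ≤ x ^ (n + 1) := by
  induction n with
  | zero => simp
  | succ n ih =>
    have h1 := mul_le_mul_of_nonneg_left ih hx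
    have h2 : 0 ≤ (n + 1) * c ^ n * (x - c) ^ 2 := by positivity
    have e : x * x ^ (n + 1) = x ^ (n + 1 + 1) := by ring
    rw [← e]
    refine le_trans (le_of_eq ?_) (le_trans (sub_le_self _ h2) h1)
    push_cast
    ring

lemma wN_int {T h a t : ℝ} (ha : 0 < a) (q : ℕ) :
    Integrable (fun u : ℝ => (1 + (a * u) ^ 2)⁻¹ * Nf T h (t + u) ^ q) := by
  refine ((cint ha).const_mul ((∑ s ∈ Zf riemannZeta T (2 * T), mz s) ^ q)).mono' ?_
    (Eventually.of_forall fun u => ?_)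
  · exact ((by fun_prop : Measurable fun u : ℝ => (1 + (a * u) ^ 2)⁻¹).mul
      (((Nf_meas T h).comp (by fun_prop)).pow_const q)).aestronglyMeasurable
  · have h0 := Nf_nonneg T h (t + u)
    rw [Real.norm_eq_abs, abs_of_nonneg (by positivity), mul_comm]
    refine mul_le_mul_of_nonneg_right ?_ (by positivity)
    exact pow_le_pow_left₀ h0 (Nf_le T h _) q

lemma Sf_le {T h a t : ℝ} (ha : 0 < a) (hh : 0 < h) (hah : a * h ≤ 1) :
    Sf T a t ≤ 3 / (2 * h) * ∫ u : ℝ, (1 + (a * u) ^ 2)⁻¹ * Nf T h (t + u) := by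
  have hi : ∀ x : ℝ, Integrable (fun u : ℝ => (1 + (a * u) ^ 2)⁻¹ * (if |x - u| ≤ h then 1 else 0)) := by
    intro x
    refine (cint ha).mono' ?_ (Eventually.of_forall fun u => ?_)
    · refine (by fun_prop : Measurable fun u : ℝ => (1 + (a * u) ^ 2)⁻¹).mul
        (Measurable.ite (measurableSet_le (by fun_prop) measurable_const) measurable_const
          measurable_const) |>.aestronglyMeasurable
    · rw [Real.norm_eq_abs, abs_of_nonneg (by split_ifs <;> positivity)]
      split_ifs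
      · simp
      · simp; positivity
  have e1 : ∀ u : ℝ, (1 + (a * u) ^ 2)⁻¹ * Nf T h (t + u) = ∑ s ∈ Zf riemannZeta T (2 * T),
      mz s * ((1 + (a * u) ^ 2)⁻¹ * (if |(s.im - t) - u| ≤ h then 1 else 0)) := by
    intro u
    unfold Nf
    rw [Finset.mul_sum]
    refine Finset.sum_congr rfl fun s _ => ?_
    have : s.im - (t + u) = (s.im - t) - u := by ring
    rw [this]
    ring
  simp_rw [e1]
  rw [integral_finsetSum _ fun s _ => (hi (s.im - t)).const_mul _, Finset.mul_sum]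
  unfold Sf
  refine Finset.sum_le_sum fun s _ => ?_
  rw [integral_const_mul]
  have h1 := mul_le_mul_of_nonneg_left (cauchy_avg (x := s.im - t) ha hh hah) (mz_nonneg s)
  refine h1.trans (le_of_eq (by ring))

lemma Sf_pow {T h a t : ℝ} (ha : 0 < a) (hh : 0 < h) (hah : a * h ≤ 1) (n : ℕ) :
    Sf T a t ^ (n + 1) ≤ (3 / (2 * h)) ^ (n + 1) * (Real.pi / a) ^ n *
      ∫ u : ℝ, (1 + (a * u) ^ 2)⁻¹ * Nf T h (t + u) ^ (n + 1) := by
  have hpi := Real.pi_pos
  set I := Real.pi / a with hI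
  have hI0 : 0 < I := by positivity
  set J := ∫ u : ℝ, (1 + (a * u) ^ 2)⁻¹ * Nf T h (t + u) with hJ
  have hJ0 : 0 ≤ J := integral_nonneg fun u => mul_nonneg (by positivity) (Nf_nonneg _ _ _)
  have hJi : Integrable (fun u : ℝ => (1 + (a * u) ^ 2)⁻¹ * Nf T h (t + u)) := by
    have := wN_int (T := T) (h := h) (t := t) ha 1
    simpa using this
  set c := J / I with hc
  have hc0 : 0 ≤ c := by positivity
  have h1 : I * c ^ (n + 1) ≤ ∫ u : ℝ, (1 + (a * u) ^ 2)⁻¹ * Nf T h (t + u) ^ (n + 1) := by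
    have h2 : ∫ u : ℝ, ((c ^ (n + 1) - (n + 1) * c ^ n * c) * (1 + (a * u) ^ 2)⁻¹ +
        (n + 1) * c ^ n * ((1 + (a * u) ^ 2)⁻¹ * Nf T h (t + u))) ≤
        ∫ u : ℝ, (1 + (a * u) ^ 2)⁻¹ * Nf T h (t + u) ^ (n + 1) := by
      refine integral_mono (((cint ha).const_mul _).add (hJi.const_mul _)) (wN_int ha _) fun u => ?_
      have h3 := mul_le_mul_of_nonneg_left (tangent (Nf_nonneg T h (t + u)) hc0 n)
        (by positivity : 0 ≤ (1 + (a * u) ^ 2)⁻¹)
      refine le_trans (le_of_eq ?_) h3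
      ring
    refine le_trans (le_of_eq ?_) h2
    rw [integral_add ((cint ha).const_mul _) (hJi.const_mul _), integral_const_mul, integral_const_mul,
      cint_eq ha, ← hI, ← hJ]
    have h4 : J = c * I := by rw [hc]; field_simp
    rw [h4]
    ring
  have h5 := Sf_le (T := T) (t := t) ha hh hah
  calc Sf T a t ^ (n + 1) ≤ (3 / (2 * h) * J) ^ (n + 1) :=
        pow_le_pow_left₀ (Sf_nonneg _ _ _) h5 _
    _ = (3 / (2 * h)) ^ (n + 1) * I ^ n * (I * c ^ (n + 1)) := by
        have h4 : J = c * I := by rw [hc]; field_simp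
        rw [h4]
        ring
    _ ≤ _ := mul_le_mul_of_nonneg_left h1 (by positivity)

/-- the moments of the smooth count -/
theorem Sf_mom (n : ℕ) : ∃ C T0 : ℝ, 0 < C ∧ 10 ≤ T0 ∧ ∀ T L a : ℝ, T0 ≤ T → 1 ≤ L →
    2 * Real.pi * a = Real.log T / L → 0 < a →
    ∫⁻ t : ℝ, ENNReal.ofReal (Sf T a t ^ (n + 1)) ≤ ENNReal.ofReal (C * T * L ^ (n + 1)) := by
  obtain ⟨C, T0, hC, hT0, h⟩ := Nf_mom (n + 1) (by omega)
  have hpi := Real.pi_pos
  refine ⟨C * (3 * Real.pi ^ 2) ^ (n + 1), T0, by positivity, hT0, fun T L a hT hL hLa ha => ?_⟩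
  have hl : 0 < Real.log T := Real.log_pos (by linarith)
  have hL0 : 0 < L := by linarith
  set hh : ℝ := 1 / Real.log T with hhd
  have hh0 : 0 < hh := by positivity
  have ea : a = Real.log T / (2 * Real.pi * L) := by
    field_simp
    field_simp at hLa
    linarith
  have hah : a * hh ≤ 1 := by
    rw [ea, hhd]
    have h3 := Real.pi_gt_three
    have : Real.log T / (2 * Real.pi * L) * (1 / Real.log T) = 1 / (2 * Real.pi * L) := by field_simp
    rw [this, div_le_one (by positivity)]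
    nlinarith
  set D : ℝ := (3 / (2 * hh)) ^ (n + 1) * (Real.pi / a) ^ n with hD
  have hD0 : 0 ≤ D := by positivity
  have h1 : ∀ t : ℝ, ENNReal.ofReal (Sf T a t ^ (n + 1)) ≤ ENNReal.ofReal D *
      ∫⁻ u : ℝ, ENNReal.ofReal ((1 + (a * u) ^ 2)⁻¹) * ENNReal.ofReal (Nf T hh (t + u) ^ (n + 1)) := by
    intro t
    refine (ENNReal.ofReal_le_ofReal (Sf_pow ha hh0 hah n)).trans ?_
    rw [← hD, ENNReal.ofReal_mul hD0]
    refine mul_le_mul_right ?_ _
    rw [ofReal_integral_eq_lintegral_ofReal (wN_int ha _) (Eventually.of_forall fun u =>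
      mul_nonneg (by positivity) (pow_nonneg (Nf_nonneg _ _ _) _))]
    refine le_of_eq (lintegral_congr fun u => ?_)
    rw [ENNReal.ofReal_mul (by positivity)]
  have hm : Measurable (fun x : ℝ => ENNReal.ofReal (Nf T hh x ^ (n + 1))) :=
    ((Nf_meas T hh).pow_const _).ennreal_ofReal
  calc ∫⁻ t : ℝ, ENNReal.ofReal (Sf T a t ^ (n + 1)) ≤ ∫⁻ t : ℝ, ENNReal.ofReal D *
        ∫⁻ u : ℝ, ENNReal.ofReal ((1 + (a * u) ^ 2)⁻¹) * ENNReal.ofReal (Nf T hh (t + u) ^ (n + 1)) :=
        lintegral_mono h1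
    _ = ENNReal.ofReal D * ∫⁻ t : ℝ, ∫⁻ u : ℝ, ENNReal.ofReal ((1 + (a * u) ^ 2)⁻¹) *
          ENNReal.ofReal (Nf T hh (t + u) ^ (n + 1)) := by
        rw [lintegral_const_mul' _ _ ENNReal.ofReal_ne_top]
    _ = ENNReal.ofReal D * ∫⁻ u : ℝ, ∫⁻ t : ℝ, ENNReal.ofReal ((1 + (a * u) ^ 2)⁻¹) *
          ENNReal.ofReal (Nf T hh (t + u) ^ (n + 1)) := by
        congr 1
        refine lintegral_lintegral_swap ?_
        refine Measurable.aemeasurable ?_
        exact (by fun_prop : Measurable fun x : ℝ × ℝ => ENNReal.ofReal ((1 + (a * x.2) ^ 2)⁻¹)).mul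
          (hm.comp (by fun_prop : Measurable fun x : ℝ × ℝ => x.1 + x.2))
    _ = ENNReal.ofReal D * ∫⁻ u : ℝ, ENNReal.ofReal ((1 + (a * u) ^ 2)⁻¹) *
          ∫⁻ t : ℝ, ENNReal.ofReal (Nf T hh t ^ (n + 1)) := by
        congr 1
        refine lintegral_congr fun u => ?_
        rw [lintegral_const_mul' _ _ ENNReal.ofReal_ne_top,
          lintegral_add_right_eq_self (fun x : ℝ => ENNReal.ofReal (Nf T hh x ^ (n + 1))) u]
    _ = ENNReal.ofReal D * (ENNReal.ofReal (Real.pi / a) *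
          ∫⁻ t : ℝ, ENNReal.ofReal (Nf T hh t ^ (n + 1))) := by
        rw [lintegral_mul_const _ (by fun_prop : Measurable fun u : ℝ => ENNReal.ofReal ((1 + (a * u) ^ 2)⁻¹)),
          ← ofReal_integral_eq_lintegral_ofReal (cint ha) (Eventually.of_forall fun u => by positivity),
          cint_eq ha]
    _ ≤ ENNReal.ofReal D * (ENNReal.ofReal (Real.pi / a) * ENNReal.ofReal (C * T)) := by
        gcongr
        exact h T hT
    _ = _ := by
        rw [← ENNReal.ofReal_mul (by positivity), ← ENNReal.ofReal_mul hD0]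
        congr 1
        have e1 : D * (Real.pi / a) = (3 * Real.pi ^ 2 * L) ^ (n + 1) := by
          rw [hD, mul_assoc, ← pow_succ, ← mul_pow]
          congr 1
          rw [hhd, ea]
          field_simp
        calc D * (Real.pi / a * (C * T)) = (D * (Real.pi / a)) * (C * T) := by ring
          _ = _ := by rw [e1, mul_pow]; ring

end Pool.Agent.Q278.KM
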