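import Pool.Agent.Q278.KM.E

/-!
# The moments of the bounding function of the zero side (helper278)
-/

set_option autoImplicit false

namespace Pool.Agent.Q278.KM

open Filter Topology Finset MeasureTheory
open H370 (Zf mult mem_Zf good_zeta)
open Pool.Agent.Q278.MC (mz mz_nonneg Bz Bz_cont)
open Pool.Agent.TH850.UR (ew)
open Pool.Agent.Y750.OM (expm)

/-- the weight of a zero -/
noncomputable def wB (W a : ℝ) (s : ℂ) : ℝ :=
  W⁻¹ ^ 4 + W * (((s.re - 1 / 2) * (2 * Real.pi * a)) ^ 2 *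
    Real.exp (2 * W * |(s.re - 1 / 2) * (2 * Real.pi * a)|))

lemma wB_nonneg {W : ℝ} (hW : 0 < W) (a : ℝ) (s : ℂ) : 0 ≤ wB W a s := by
  unfold wB
  positivity

/-- the bounding function -/
noncomputable def Bf (W T a t : ℝ) : ℝ :=
  ∑ s ∈ Zf riemannZeta T (2 * T), (mz s * (1 + (a * (s.im - t)) ^ 2)⁻¹) * wB W a s

lemma Bz_le {K W a A B T t : ℝ} (hK : 0 ≤ K) (hW : 0 < W) (hT : 10 ≤ T) (hA : T ≤ A)
    (hB : B ≤ 2 * T) : Bz K W a A B t ≤ K * Bf W T a t := by
  have hsub : Zf riemannZeta A B ⊆ Zf riemannZeta T (2 * T) := by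
    intro s hs
    rw [mem_Zf good_zeta (by linarith)] at hs ⊢
    exact ⟨hs.1, hs.2.1, by linarith [hs.2.2.1], by linarith [hs.2.2.2.1], hs.2.2.2.2⟩
  unfold Bz Bf
  rw [Finset.mul_sum]
  refine (Finset.sum_le_sum_of_subset_of_nonneg hsub fun s _ _ => ?_).trans
    (le_of_eq (Finset.sum_congr rfl fun s _ => ?_))
  · have := mz_nonneg s
    positivity
  · unfold wB
    ring

lemma sum_pow_le {ι : Type*} (S : Finset ι) (μ w : ι → ℝ) (hμ : ∀ i ∈ S, 0 ≤ μ i)
    (hw : ∀ i ∈ S, 0 ≤ w i) (n : ℕ) :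
    (∑ i ∈ S, μ i * w i) ^ (n + 1) ≤ (∑ i ∈ S, μ i) ^ n * ∑ i ∈ S, μ i * w i ^ (n + 1) := by
  set I := ∑ i ∈ S, μ i with hI
  set J := ∑ i ∈ S, μ i * w i with hJ
  have hI0 : 0 ≤ I := Finset.sum_nonneg hμ
  have hJ0 : 0 ≤ J := Finset.sum_nonneg fun i hi => mul_nonneg (hμ i hi) (hw i hi)
  have hR0 : 0 ≤ ∑ i ∈ S, μ i * w i ^ (n + 1) :=
    Finset.sum_nonneg fun i hi => mul_nonneg (hμ i hi) (pow_nonneg (hw i hi) _)
  rcases hI0.eq_or_lt with h | h
  · have h1 : ∀ i ∈ S, μ i = 0 := (Finset.sum_eq_zero_iff_of_nonneg hμ).1 h.symm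
    have h2 : J = 0 := Finset.sum_eq_zero fun i hi => by rw [h1 i hi, zero_mul]
    rw [h2, zero_pow (by omega)]
    positivity
  · set c := J / I with hc
    have hc0 : 0 ≤ c := by positivity
    have h4 : J = c * I := by rw [hc]; field_simp
    have h5 : I * c ^ (n + 1) ≤ ∑ i ∈ S, μ i * w i ^ (n + 1) := by
      have h6 : ∑ i ∈ S, μ i * (c ^ (n + 1) + (n + 1) * c ^ n * (w i - c)) ≤
          ∑ i ∈ S, μ i * w i ^ (n + 1) :=
        Finset.sum_le_sum fun i hi => mul_le_mul_of_nonneg_left (tangent (hw i hi) hc0 n) (hμ i hi)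
      refine le_trans (le_of_eq ?_) h6
      have h7 : ∑ i ∈ S, μ i * (c ^ (n + 1) + (n + 1) * c ^ n * (w i - c)) =
          (c ^ (n + 1) - (n + 1) * c ^ n * c) * I + (n + 1) * c ^ n * J := by
        rw [hI, hJ, Finset.mul_sum, Finset.mul_sum, ← Finset.sum_add_distrib]
        refine Finset.sum_congr rfl fun i _ => ?_
        ring
      rw [h7, h4]
      ring
    calc J ^ (n + 1) = I ^ n * (I * c ^ (n + 1)) := by rw [h4]; ring
      _ ≤ _ := mul_le_mul_of_nonneg_left h5 (by positivity)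

lemma Bf_pow {W T a t lam : ℝ} (hW : 0 < W) (hlam : 0 < lam) (n : ℕ) :
    Bf W T a t ^ (n + 1) ≤ 1 / 2 * (lam * ∑ s ∈ Zf riemannZeta T (2 * T),
      (mz s * wB W a s ^ (2 * (n + 1))) * (1 + (a * (s.im - t)) ^ 2)⁻¹ +
        lam⁻¹ * Sf T a t ^ (2 * n + 1)) := by
  have hS0 := Sf_nonneg T a t
  have h1 := sum_pow_le (Zf riemannZeta T (2 * T)) (fun s => mz s * (1 + (a * (s.im - t)) ^ 2)⁻¹)
    (fun s => wB W a s) (fun s _ => mul_nonneg (mz_nonneg s) (by positivity))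
    (fun s _ => wB_nonneg hW a s) n
  unfold Bf
  refine h1.trans ?_
  have e1 : ∑ s ∈ Zf riemannZeta T (2 * T), mz s * (1 + (a * (s.im - t)) ^ 2)⁻¹ = Sf T a t := rfl
  simp only [e1]
  have e2 : lam * ∑ s ∈ Zf riemannZeta T (2 * T),
      (mz s * wB W a s ^ (2 * (n + 1))) * (1 + (a * (s.im - t)) ^ 2)⁻¹ +
        lam⁻¹ * Sf T a t ^ (2 * n + 1) = ∑ s ∈ Zf riemannZeta T (2 * T),
      (mz s * (1 + (a * (s.im - t)) ^ 2)⁻¹) * (lam * wB W a s ^ (2 * (n + 1)) +
        lam⁻¹ * Sf T a t ^ (2 * n)) := by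
    have e3 : lam⁻¹ * Sf T a t ^ (2 * n + 1) = ∑ s ∈ Zf riemannZeta T (2 * T),
        (mz s * (1 + (a * (s.im - t)) ^ 2)⁻¹) * (lam⁻¹ * Sf T a t ^ (2 * n)) := by
      rw [← Finset.sum_mul, e1]
      ring
    rw [e3, Finset.mul_sum, ← Finset.sum_add_distrib]
    refine Finset.sum_congr rfl fun s _ => ?_
    ring
  rw [e2, Finset.mul_sum, Finset.mul_sum]
  refine Finset.sum_le_sum fun s _ => ?_
  have hv : 0 ≤ mz s * (1 + (a * (s.im - t)) ^ 2)⁻¹ := mul_nonneg (mz_nonneg s) (by positivity)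
  have h2 : wB W a s ^ (n + 1) * Sf T a t ^ n ≤ 1 / 2 * (lam * wB W a s ^ (2 * (n + 1)) +
        lam⁻¹ * Sf T a t ^ (2 * n)) := by
    set x := wB W a s ^ (n + 1) with hx
    set y := Sf T a t ^ n with hy
    have ex : wB W a s ^ (2 * (n + 1)) = x ^ 2 := by rw [hx, ← pow_mul, mul_comm]
    have ey : Sf T a t ^ (2 * n) = y ^ 2 := by rw [hy, ← pow_mul, mul_comm]
    rw [ex, ey]
    have h3 : 0 ≤ lam⁻¹ * (lam * x - y) ^ 2 := by positivity
    have h4 : lam⁻¹ * (lam * x - y) ^ 2 = lam * x ^ 2 - 2 * (x * y) + lam⁻¹ * y ^ 2 := by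
      field_simp
      ring
    linarith
  calc Sf T a t ^ n * (mz s * (1 + (a * (s.im - t)) ^ 2)⁻¹ * wB W a s ^ (n + 1)) =
        (mz s * (1 + (a * (s.im - t)) ^ 2)⁻¹) * (wB W a s ^ (n + 1) * Sf T a t ^ n) := by ring
    _ ≤ (mz s * (1 + (a * (s.im - t)) ^ 2)⁻¹) * (1 / 2 * (lam * wB W a s ^ (2 * (n + 1)) +
        lam⁻¹ * Sf T a t ^ (2 * n))) := mul_le_mul_of_nonneg_left h2 hv
    _ = _ := by ring

/-- the sum of the powers of the weights -/
lemma wB_sum (p : ℕ) (hp : 1 ≤ p) : ∃ C : ℝ, 0 < C ∧ ∀ T L W a : ℝ, 10 ≤ T → 0 < L →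
    0 < W → 8 * p * W ≤ L → 2 * Real.pi * a = Real.log T / L →
    ∑ s ∈ Zf riemannZeta T (2 * T), mz s * wB W a s ^ (2 * p) ≤
      C * (T * Real.log T) * (W⁻¹ ^ 4 + W / L ^ 2) ^ (2 * p) := by
  obtain ⟨C, hC, h⟩ := expm (κ := 1) zero_le_one (by norm_num)
  have hp' : (1 : ℝ) ≤ p := by exact_mod_cast hp
  refine ⟨(32 * (p : ℝ) ^ 2) ^ (2 * p) * C, by positivity, fun T L W a hT hL hW hWL ha => ?_⟩
  have hl : 0 < Real.log T := Real.log_pos (by linarith)
  set ε := W⁻¹ ^ 4 + W / L ^ 2 with hε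
  have hε0 : 0 < ε := by positivity
  have hpt : ∀ s : ℂ, wB W a s ^ (2 * p) ≤ (32 * (p : ℝ) ^ 2) ^ (2 * p) * ε ^ (2 * p) *
      ew 1 (Real.log T) s := by
    intro s
    unfold wB ew
    rw [ha, one_mul]
    set v : ℝ := |s.re - 1 / 2| * Real.log T with hv
    have hv0 : 0 ≤ v := by positivity
    have e1 : ((s.re - 1 / 2) * (Real.log T / L)) ^ 2 = v ^ 2 / L ^ 2 := by
      rw [hv, mul_pow, mul_pow, sq_abs, div_pow]; ring
    have e2 : 2 * W * |(s.re - 1 / 2) * (Real.log T / L)| = 2 * W * v / L := by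
      rw [hv, abs_mul, abs_div, abs_of_pos hl, abs_of_pos hL]; ring
    rw [e1, e2]
    set d : ℝ := v / (4 * p) with hd
    have hd0 : 0 ≤ d := by positivity
    have e3 : Real.exp (2 * W * v / L) ≤ Real.exp d := by
      apply Real.exp_le_exp.2
      rw [hd, div_le_div_iff₀ hL (by positivity)]
      nlinarith
    have e4 : v ^ 2 ≤ 32 * (p : ℝ) ^ 2 * Real.exp d := by
      have h5 := Real.quadratic_le_exp_of_nonneg hd0
      have h6 : v = 4 * p * d := by rw [hd]; field_simp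
      have h7 : v ^ 2 = 16 * (p : ℝ) ^ 2 * d ^ 2 := by rw [h6]; ring
      rw [h7]
      have h8 : 0 ≤ (p : ℝ) ^ 2 := by positivity
      nlinarith
    have e6 : 1 ≤ Real.exp (2 * d) := Real.one_le_exp (by positivity)
    have e5 : Real.exp d * Real.exp d = Real.exp (2 * d) := by rw [← Real.exp_add]; congr 1; ring
    have e7 : v ^ 2 * Real.exp (2 * W * v / L) ≤ 32 * (p : ℝ) ^ 2 * Real.exp (2 * d) := by
      calc v ^ 2 * Real.exp (2 * W * v / L) ≤ (32 * (p : ℝ) ^ 2 * Real.exp d) * Real.exp d :=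
            mul_le_mul e4 e3 (Real.exp_pos _).le (by positivity)
        _ = _ := by rw [mul_assoc, e5]
    have h9 : (1 : ℝ) ≤ 32 * (p : ℝ) ^ 2 := by nlinarith
    have e8 : W⁻¹ ^ 4 + W * (v ^ 2 / L ^ 2 * Real.exp (2 * W * v / L)) ≤
        32 * (p : ℝ) ^ 2 * ε * Real.exp (2 * d) := by
      calc W⁻¹ ^ 4 + W * (v ^ 2 / L ^ 2 * Real.exp (2 * W * v / L)) =
            W⁻¹ ^ 4 * 1 + W / L ^ 2 * (v ^ 2 * Real.exp (2 * W * v / L)) := by ring
        _ ≤ W⁻¹ ^ 4 * (32 * (p : ℝ) ^ 2 * Real.exp (2 * d)) +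
              W / L ^ 2 * (32 * (p : ℝ) ^ 2 * Real.exp (2 * d)) := by
            refine add_le_add (mul_le_mul_of_nonneg_left ?_ (by positivity))
              (mul_le_mul_of_nonneg_left e7 (by positivity))
            nlinarith
        _ = _ := by rw [hε]; ring
    refine (pow_le_pow_left₀ (by positivity) e8 (2 * p)).trans (le_of_eq ?_)
    rw [mul_pow, mul_pow, ← Real.exp_nat_mul]
    congr 2
    rw [hd]
    push_cast
    field_simp
    ring
  have h1 := h T hT
  calc ∑ s ∈ Zf riemannZeta T (2 * T), mz s * wB W a s ^ (2 * p) ≤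
      ∑ s ∈ Zf riemannZeta T (2 * T), (32 * (p : ℝ) ^ 2) ^ (2 * p) * ε ^ (2 * p) *
        (mz s * ew 1 (Real.log T) s) := by
        refine Finset.sum_le_sum fun s _ => ?_
        refine (mul_le_mul_of_nonneg_left (hpt s) (mz_nonneg s)).trans (le_of_eq (by ring))
    _ = (32 * (p : ℝ) ^ 2) ^ (2 * p) * ε ^ (2 * p) * ∑ s ∈ Zf riemannZeta T (2 * T),
          (mult riemannZeta s : ℝ) * ew 1 (Real.log T) s := by
        rw [Finset.mul_sum]
        rfl
    _ ≤ (32 * (p : ℝ) ^ 2) ^ (2 * p) * ε ^ (2 * p) * (C * (T * Real.log T)) :=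
        mul_le_mul_of_nonneg_left h1 (by positivity)
    _ = _ := by ring

lemma Sf_cont (T a : ℝ) : Continuous (Sf T a) := by
  unfold Sf
  refine continuous_finsetSum _ fun s _ => continuous_const.mul ?_
  refine Continuous.inv₀ (by fun_prop) fun t => ?_
  positivity

lemma Bf_cont (W T a : ℝ) : Continuous (Bf W T a) := by
  unfold Bf
  refine continuous_finsetSum _ fun s _ => Continuous.mul (continuous_const.mul ?_) continuous_const
  refine Continuous.inv₀ (by fun_prop) fun t => ?_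
  positivity

/-- the moments of the bounding function -/
theorem Bz_mom (n : ℕ) : ∃ C T0 : ℝ, 0 < C ∧ 10 ≤ T0 ∧ ∀ K T A B L W a x1 x2 : ℝ, 0 ≤ K → T0 ≤ T →
    T ≤ A → B ≤ 2 * T → 1 ≤ L → 0 < W → 8 * (n + 1) * W ≤ L → 2 * Real.pi * a = Real.log T / L →
    x1 ≤ x2 →
    ∫ t in x1..x2, Bz K W a A B t ^ (n + 1) ≤ K ^ (n + 1) * (C * T * (L * W⁻¹ ^ 4 + W / L) ^ (n + 1)) := by
  obtain ⟨C1, hC1, h1⟩ := wB_sum (n + 1) (by omega)
  obtain ⟨C2, T2, hC2, hT2, h2⟩ := Sf_mom (2 * n)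
  have hpi := Real.pi_pos
  refine ⟨Real.pi ^ 2 * C1 + C2, T2, by positivity, hT2,
    fun K T A B L W a x1 x2 hK hT hA hB hL hW hWL ha hx => ?_⟩
  have hT10 : 10 ≤ T := hT2.trans hT
  have hT0 : 0 < T := by linarith
  have hL0 : 0 < L := by linarith
  have hl : 0 < Real.log T := Real.log_pos (by linarith)
  have ha0 : 0 < a := by
    have h3 : 0 < 2 * Real.pi * a := by rw [ha]; positivity
    by_contra hn
    push Not at hn
    nlinarith
  have ea : Real.pi / a = 2 * Real.pi ^ 2 * L / Real.log T := by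
    rw [div_eq_div_iff ha0.ne' hl.ne']
    have h3 : 2 * Real.pi * a * L = Real.log T := by rw [ha]; field_simp
    calc Real.pi * Real.log T = Real.pi * (2 * Real.pi * a * L) := by rw [h3]
      _ = _ := by ring
  set ε := W⁻¹ ^ 4 + W / L ^ 2 with hε
  have hε0 : 0 < ε := by positivity
  have hLε : L * W⁻¹ ^ 4 + W / L = L * ε := by rw [hε]; field_simp
  set lam := L ^ n / ε ^ (n + 1) with hlam
  have hlam0 : 0 < lam := by positivity
  have hBf0 : ∀ t, 0 ≤ Bf W T a t := fun t => Finset.sum_nonneg fun s _ =>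
    mul_nonneg (mul_nonneg (mz_nonneg s) (by positivity)) (wB_nonneg hW a s)
  have hBz0 : ∀ t, 0 ≤ Bz K W a A B t := fun t => by
    unfold Bz
    refine Finset.sum_nonneg fun s _ => ?_
    have := mz_nonneg s
    positivity
  -- first the pointwise bound
  have h3 : ∫ t in x1..x2, Bz K W a A B t ^ (n + 1) ≤
      ∫ t in x1..x2, K ^ (n + 1) * Bf W T a t ^ (n + 1) := by
    refine intervalIntegral.integral_mono_on hx (((Bz_cont K W a A B).pow _).intervalIntegrable _ _)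
      (Continuous.intervalIntegrable (continuous_const.mul ((Bf_cont W T a).pow _)) _ _) fun t _ => ?_
    rw [← mul_pow]
    exact pow_le_pow_left₀ (hBz0 t) (Bz_le hK hW hT10 hA hB) _
  refine h3.trans ?_
  rw [intervalIntegral.integral_const_mul]
  refine mul_le_mul_of_nonneg_left ?_ (by positivity)
  -- the two sums
  have hI : ∀ γ : ℝ, Integrable (fun t : ℝ => (1 + (a * (γ - t)) ^ 2)⁻¹) := by
    intro γ
    exact (integrable_inv_one_add_sq.comp_mul_left' ha0.ne').comp_sub_left γ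
  have hI2 : ∀ γ : ℝ, ∫ t : ℝ, (1 + (a * (γ - t)) ^ 2)⁻¹ = Real.pi / a := by
    intro γ
    rw [integral_sub_left_eq_self (fun t : ℝ => (1 + (a * t) ^ 2)⁻¹) volume γ, cint_eq ha0]
  have hle : ∀ γ : ℝ, ∫ t in x1..x2, (1 + (a * (γ - t)) ^ 2)⁻¹ ≤ Real.pi / a := by
    intro γ
    rw [intervalIntegral.integral_of_le hx, ← hI2 γ]
    exact setIntegral_le_integral (hI γ) (Eventually.of_forall fun t => by positivity)
  have h4 : ∫ t in x1..x2, ∑ s ∈ Zf riemannZeta T (2 * T),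
      (mz s * wB W a s ^ (2 * (n + 1))) * (1 + (a * (s.im - t)) ^ 2)⁻¹ ≤
      Real.pi / a * (C1 * (T * Real.log T) * ε ^ (2 * (n + 1))) := by
    rw [intervalIntegral.integral_finsetSum fun s _ => ((hI s.im).const_mul _).intervalIntegrable]
    calc ∑ s ∈ Zf riemannZeta T (2 * T), ∫ t in x1..x2, (mz s * wB W a s ^ (2 * (n + 1))) *
          (1 + (a * (s.im - t)) ^ 2)⁻¹ ≤
        ∑ s ∈ Zf riemannZeta T (2 * T), Real.pi / a * (mz s * wB W a s ^ (2 * (n + 1))) := by
          refine Finset.sum_le_sum fun s _ => ?_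
          rw [intervalIntegral.integral_const_mul, mul_comm]
          exact mul_le_mul_of_nonneg_right (hle s.im)
            (mul_nonneg (mz_nonneg s) (pow_nonneg (wB_nonneg hW a s) _))
      _ = Real.pi / a * ∑ s ∈ Zf riemannZeta T (2 * T), mz s * wB W a s ^ (2 * (n + 1)) := by
          rw [Finset.mul_sum]
      _ ≤ _ := mul_le_mul_of_nonneg_left
          (h1 T L W a hT10 hL0 hW (by push_cast; linarith) ha) (by positivity)
  have h5 : ∫ t in x1..x2, Sf T a t ^ (2 * n + 1) ≤ C2 * T * L ^ (2 * n + 1) := by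
    have h6 := h2 T L a hT hL ha ha0
    have hc : Continuous fun t => Sf T a t ^ (2 * n + 1) := (Sf_cont T a).pow _
    rw [intervalIntegral.integral_of_le hx]
    have h7 : ENNReal.ofReal (∫ t in Set.Ioc x1 x2, Sf T a t ^ (2 * n + 1)) ≤
        ENNReal.ofReal (C2 * T * L ^ (2 * n + 1)) := by
      rw [ofReal_integral_eq_lintegral_ofReal]
      · exact (setLIntegral_le_lintegral _ _).trans h6
      · exact hc.integrableOn_Icc.mono_set Set.Ioc_subset_Icc_self
      · exact Eventually.of_forall fun t => pow_nonneg (Sf_nonneg T a t) _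
    exact (ENNReal.ofReal_le_ofReal_iff (by positivity)).1 h7
  have hsc : Continuous fun t => ∑ s ∈ Zf riemannZeta T (2 * T),
      (mz s * wB W a s ^ (2 * (n + 1))) * (1 + (a * (s.im - t)) ^ 2)⁻¹ := by
    refine continuous_finsetSum _ fun s _ => continuous_const.mul ?_
    refine Continuous.inv₀ (by fun_prop) fun t => ?_
    positivity
  have hSc : Continuous fun t => Sf T a t ^ (2 * n + 1) := (Sf_cont T a).pow _
  calc ∫ t in x1..x2, Bf W T a t ^ (n + 1) ≤ ∫ t in x1..x2, 1 / 2 * (lam *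
        (∑ s ∈ Zf riemannZeta T (2 * T), (mz s * wB W a s ^ (2 * (n + 1))) *
          (1 + (a * (s.im - t)) ^ 2)⁻¹) + lam⁻¹ * Sf T a t ^ (2 * n + 1)) := by
        refine intervalIntegral.integral_mono_on hx (((Bf_cont W T a).pow _).intervalIntegrable _ _)
          ?_ fun t _ => Bf_pow hW hlam0 n
        exact Continuous.intervalIntegrable (continuous_const.mul
          ((continuous_const.mul hsc).add (continuous_const.mul hSc))) _ _
    _ = 1 / 2 * (lam * (∫ t in x1..x2, ∑ s ∈ Zf riemannZeta T (2 * T),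
          (mz s * wB W a s ^ (2 * (n + 1))) * (1 + (a * (s.im - t)) ^ 2)⁻¹) +
          lam⁻¹ * ∫ t in x1..x2, Sf T a t ^ (2 * n + 1)) := by
        rw [intervalIntegral.integral_const_mul, intervalIntegral.integral_add,
          intervalIntegral.integral_const_mul, intervalIntegral.integral_const_mul]
        · exact (continuous_const.mul hsc).intervalIntegrable _ _
        · exact (continuous_const.mul hSc).intervalIntegrable _ _
    _ ≤ 1 / 2 * (lam * (Real.pi / a * (C1 * (T * Real.log T) * ε ^ (2 * (n + 1)))) +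
          lam⁻¹ * (C2 * T * L ^ (2 * n + 1))) := by
        gcongr
    _ = (Real.pi ^ 2 * C1 + C2 / 2) * T * (L * ε) ^ (n + 1) := by
        rw [ea, hlam]
        have g1 : ε ^ (2 * (n + 1)) = ε ^ (n + 1) * ε ^ (n + 1) := by ring
        have g2 : L ^ (2 * n + 1) = L ^ n * L ^ (n + 1) := by ring
        rw [g1, g2, inv_div, mul_pow]
        have g3 : L ^ (n + 1) = L ^ n * L := pow_succ _ _
        have hLn : L ^ n ≠ 0 := by positivity
        have hεn : ε ^ (n + 1) ≠ 0 := by positivity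
        rw [g3]
        set y := L ^ n with hy
        set z := ε ^ (n + 1) with hz
        field_simp
    _ ≤ _ := by
        rw [hLε]
        have : 0 ≤ C2 := hC2.le
        gcongr
        linarith

end Pool.Agent.Q278.KM
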