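import Pool.Agent.Q278.KM.F
import Pool.Agent.Q278.MC.R

/-!
# The moments of the linear statistics are bounded (helper278)
-/

set_option autoImplicit false

namespace Pool.Agent.Q278.KM

open Filter Topology MeasureTheory
open H370 (Zf mult mem_Zf good_zeta NN NN_eq zcount)
open Pool.Agent.Q278.MC

lemma four_pow {a b c d : ℝ} (ha : 0 ≤ a) (hb : 0 ≤ b) (hc : 0 ≤ c) (hd : 0 ≤ d) (n : ℕ) :
    (a + b + c + d) ^ n ≤ 4 ^ n * (a ^ n + b ^ n + c ^ n + d ^ n) := by
  set M := max (max a b) (max c d) with hM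
  have h1 : a ≤ M := (le_max_left _ _).trans (le_max_left _ _)
  have h2 : b ≤ M := (le_max_right _ _).trans (le_max_left _ _)
  have h3 : c ≤ M := (le_max_left _ _).trans (le_max_right _ _)
  have h4 : d ≤ M := (le_max_right _ _).trans (le_max_right _ _)
  have h5 : M ^ n ≤ a ^ n + b ^ n + c ^ n + d ^ n := by
    have ea := pow_nonneg ha n
    have eb := pow_nonneg hb n
    have ec := pow_nonneg hc n
    have ed := pow_nonneg hd n
    rcases max_choice (max a b) (max c d) with h | h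
    · rcases max_choice a b with h' | h'
      · rw [hM, h, h']; linarith
      · rw [hM, h, h']; linarith
    · rcases max_choice c d with h' | h'
      · rw [hM, h, h']; linarith
      · rw [hM, h, h']; linarith
  calc (a + b + c + d) ^ n ≤ (4 * M) ^ n := pow_le_pow_left₀ (by positivity) (by linarith) n
    _ = 4 ^ n * M ^ n := mul_pow _ _ _
    _ ≤ _ := mul_le_mul_of_nonneg_left h5 (by positivity)

/-- the trivial bound -/
lemma st_triv {f : ℝ → ℝ} (hf : CC (fc f)) : ∃ C R : ℝ, 0 < C ∧ 0 ≤ R ∧ ∀ L T t : ℝ, 10 ≤ T → 0 ≤ L →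
    L ≤ Real.log T → R + 1 ≤ aP L T → T ≤ t → t ≤ 2 * T → |st f L T t| ≤ C * Real.log T := by
  obtain ⟨R, hR0, hR⟩ := exists_R hf
  obtain ⟨C, hC, hz⟩ := zcount good_zeta
  obtain ⟨M, hM⟩ := (fc_cont hf).bounded_above_of_compact_support (f := f) (by
    refine HasCompactSupport.intro (isCompact_closedBall (0 : ℝ) R) fun x hx => hR x ?_
    rw [Metric.mem_closedBall, dist_zero_right, Real.norm_eq_abs, not_le] at hx
    exact hx)
  have hM0 : 0 ≤ M := (norm_nonneg _).trans (hM 0)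
  refine ⟨2 * M * C + |∫ x, f x| + 1, R, by positivity, hR0, fun L T t hT hL hLT ha h1 h2 => ?_⟩
  have hl : 0 < Real.log T := Real.log_pos (by linarith)
  set a := aP L T with haP
  have hR1 : 0 < R + 1 := by linarith
  set g : ℝ → ℝ := fun x => f ((R + 1) * x) with hg
  have e1 : SZ f a t = SZ g (a / (R + 1)) t := by
    unfold SZ
    simp only [hg]
    have : ∀ s : ℂ, (R + 1) * (a / (R + 1) * (s.im - t)) = a * (s.im - t) := fun s => by
      field_simp
    simp only [this]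
  have hgR : ∀ x, R / (R + 1) < |x| → g x = 0 := by
    intro x hx
    apply hR
    rw [abs_mul, abs_of_pos hR1]
    rw [div_lt_iff₀ hR1] at hx
    linarith
  have hR2 : R / (R + 1) < 1 := by rw [div_lt_one hR1]; linarith
  have hR3 : 0 ≤ R / (R + 1) := by positivity
  have e2 := SZ_eq (A := t - 1) (B := t + 1) (t := t) (a := a / (R + 1)) hgR
    (by rw [le_div_iff₀ hR1]; linarith) (by linarith) (by linarith) (by linarith)
  have h3 := hz t (by linarith)
  rw [NN_eq good_zeta (by linarith)] at h3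
  push_cast at h3
  have h4 : |SZ f a t| ≤ M * (C * Real.log t) := by
    rw [e1, e2]
    refine (Finset.abs_sum_le_sum_abs _ _).trans ?_
    calc ∑ s ∈ Zf riemannZeta (t - 1) (t + 1), |mz s * g (a / (R + 1) * (s.im - t))| ≤
        ∑ s ∈ Zf riemannZeta (t - 1) (t + 1), M * mz s := by
          refine Finset.sum_le_sum fun s _ => ?_
          rw [abs_mul, abs_of_nonneg (mz_nonneg s), mul_comm]
          exact mul_le_mul_of_nonneg_right (hM _) (mz_nonneg s)
      _ = M * ∑ s ∈ Zf riemannZeta (t - 1) (t + 1), mz s := by rw [Finset.mul_sum]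
      _ ≤ _ := mul_le_mul_of_nonneg_left h3 hM0
  have h5 : Real.log t ≤ 2 * Real.log T := by
    have h6 : Real.log t ≤ Real.log (T ^ 2) := Real.log_le_log (by linarith) (by nlinarith)
    rwa [Real.log_pow] at h6
  unfold st
  refine (abs_sub _ _).trans ?_
  rw [abs_mul, abs_of_nonneg hL]
  have h7 : L * |∫ x, f x| ≤ Real.log T * |∫ x, f x| :=
    mul_le_mul_of_nonneg_right hLT (abs_nonneg _)
  have h8 : M * (C * Real.log t) ≤ M * (C * (2 * Real.log T)) := by gcongr
  nlinarith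

/-- the variances are bounded -/
lemma VV_ev {f : ℝ → ℝ} (hf : CC (fc f)) {T L : ℕ → ℝ} (hT : Tendsto T atTop atTop)
    (hL : Tendsto L atTop atTop) (hLT : Tendsto (fun n => L n / Real.log (T n)) atTop (𝓝 0)) :
    ∀ᶠ n in atTop, VV (cn (fc f) (aP (L n) (T n)) (XP (L n) (T n))) (PX (XP (L n) (T n))) ≤
      2 * vr (fc f) + 1 := by
  have hpi := Real.pi_pos
  have hpi3 := Real.pi_gt_three
  have haT := a_top hL hLT hT
  have hWT := W_top hL
  have hU : ∀ᶠ n in atTop, 1 ≤ UP (L n) (T n) := by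
    filter_upwards [haT.eventually_ge_atTop 1, hWT.eventually_ge_atTop 1] with n h1 h2
    unfold UP
    have h3 : 1 ≤ 2 * Real.pi * aP (L n) (T n) := by nlinarith
    nlinarith
  have hX : ∀ᶠ n in atTop, 1 ≤ XP (L n) (T n) := hU.mono fun n hn => XP_one (by linarith)
  have h := VV_lim (f := fc f) hf (fc_real f) haT (X := fun n => max 1 (XP (L n) (T n)))
    (fun n => le_max_left _ _) (by
      refine tendsto_atTop_mono' atTop ?_ (hWT.const_mul_atTop (by norm_num : (0 : ℝ) < 2))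
      filter_upwards [hU, hX, haT.eventually_ge_atTop 1] with n h1 h2 h3
      rw [max_eq_right h2]
      have h4 := XP_log2 h1
      have h5 : 0 < 2 * Real.pi * aP (L n) (T n) := by positivity
      rw [le_div_iff₀ h5]
      exact h4)
  filter_upwards [h.eventually_le_const (u := 2 * vr (fc f) + 1) (by linarith), hX] with n h1 h2
  rw [max_eq_right h2] at h1
  exact h1

lemma X_ev {T L : ℕ → ℝ} (hT : Tendsto T atTop atTop)
    (hL : Tendsto L atTop atTop) (m : ℕ) :
    ∀ᶠ n in atTop, ((XP (L n) (T n) : ℝ)) ^ m ≤ Real.sqrt (T n) := by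
  have h1 := (WL_zero hL).const_mul (4 * (m : ℝ))
  rw [mul_zero] at h1
  filter_upwards [h1.eventually_le_const (u := 1 / 2) (by norm_num), hL.eventually_gt_atTop 0,
    hT.eventually_gt_atTop 1] with n h2 h3 h4
  have hl : 0 < Real.log (T n) := Real.log_pos h4
  have h5 : (XP (L n) (T n) : ℝ) ^ m ≤ Real.exp (2 * UP (L n) (T n)) ^ m :=
    pow_le_pow_left₀ (Nat.cast_nonneg _) XP_le m
  refine h5.trans ?_
  rw [← Real.exp_nat_mul, Real.sqrt_eq_rpow, Real.rpow_def_of_pos (by linarith)]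
  apply Real.exp_le_exp.2
  unfold UP
  rw [aP_eq h3]
  have h6 : (m : ℝ) * (2 * (2 * WP (L n) * (Real.log (T n) / L n))) =
      (4 * (m : ℝ) * (WP (L n) / L n)) * Real.log (T n) := by ring
  rw [h6, mul_comm (Real.log (T n))]
  exact mul_le_mul_of_nonneg_right h2 hl.le

/-- the moments on the middle part -/
theorem mid_mom {f : ℝ → ℝ} (hf : CC (fc f)) (m : ℕ) : ∃ C T0 : ℝ, 0 < C ∧ 10 ≤ T0 ∧
    ∀ T L V : ℝ, T0 ≤ T → 64 ≤ T → 1 ≤ L → 1 ≤ aP L T → 1 ≤ WP L →
      8 * ((2 * m + 1 : ℕ) + 1) * WP L ≤ L → 16 ≤ UP L T →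
      L * (WP L)⁻¹ ^ 4 ≤ 1 → (XP L T : ℝ) ^ (2 * (m + 1)) ≤ Real.sqrt T →
      VV (cn (fc f) (aP L T) (XP L T)) (PX (XP L T)) ≤ V →
      ∫ t in (T + Real.log T)..(2 * T - Real.log T), |st f L T t| ^ (2 * (m + 1)) ≤
        C * (1 + V ^ (m + 1)) * T := by
  obtain ⟨K1, T1, hK1, hT1, h1⟩ := approx hf
  obtain ⟨C2, T2, hC2, hT2, h2⟩ := Bz_mom (2 * m + 1)
  obtain ⟨K3, hK3, h3⟩ := er_mom hf
  obtain ⟨R, hR0, hR⟩ := exists_R hf
  set M := m + 1 with hM
  have hMM : 2 * m + 1 + 1 = 2 * M := by omega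
  rw [hMM] at h2
  refine ⟨4 ^ (2 * M) * (K1 ^ (2 * M) * (C2 * 2 ^ (2 * M)) + (3 * K1) ^ (2 * M) +
    6 * K3 ^ M * M.factorial + 2 * M.factorial), max (max T1 T2) (R + 3), by positivity,
    hT1.trans ((le_max_left _ _).trans (le_max_left _ _)),
    fun T L V hT hT64 hL ha hW hWL hU hLW hX hV => ?_⟩
  have hTT1 : T1 ≤ T := ((le_max_left _ _).trans (le_max_left _ _)).trans hT
  have hTT2 : T2 ≤ T := ((le_max_right _ _).trans (le_max_left _ _)).trans hT
  have hTR : R + 3 ≤ T := (le_max_right _ _).trans hT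
  have hT10 : 10 ≤ T := hT1.trans hTT1
  have hT0 : 0 < T := by linarith
  obtain ⟨U1, U2, g1, g2, g3, g4, g5⟩ := h1 T hTT1
  have hl : 0 < Real.log T := Real.log_pos (by linarith)
  have h2l := two_log_le (x := T) (by linarith)
  have hU0 : 0 ≤ UP L T := by linarith
  have hX1 := XP_one hU0
  have hlX := XP_log hU0
  have hL0 : 0 < L := by linarith
  set a := aP L T with ha'
  set W := WP L with hW'
  set X := XP L T with hX'
  set ℓ := Real.log T with hℓ
  have haL : 2 * Real.pi * a = ℓ / L := aP_eq hL0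
  have hW0 : 0 < W := by linarith
  have ha0 : 0 < a := by linarith
  have hm0 : (0 : ℝ) ≤ ((2 * m + 1 : ℕ) : ℝ) := Nat.cast_nonneg _
  have hWL2 : 8 * W ≤ L := by nlinarith
  have hWL1 : W / L ≤ 1 := by rw [div_le_one hL0]; linarith
  have hpt := g5 L W a ha hW hL0 haL (by linarith) hU X XP_log1
  set Q : ℝ := 1 / a + Real.exp (-UP L T) + L * W⁻¹ ^ 4 with hQ
  have hQ0 : 0 ≤ Q := by positivity
  have hQ3 : Q ≤ 3 := by
    have q1 : 1 / a ≤ 1 := by rw [div_le_one ha0]; exact ha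
    have q2 : Real.exp (-UP L T) ≤ 1 := Real.exp_le_one_iff.2 (by linarith)
    linarith
  have hcst := st_cont hf hR ha hTR
  have hBz0 : ∀ t, 0 ≤ Bz K1 W a U1 U2 t := fun t => by
    unfold Bz
    refine Finset.sum_nonneg fun s _ => ?_
    have := mz_nonneg s
    positivity
  have hpt2 : ∀ t ∈ Set.Icc (T + ℓ) (2 * T - ℓ), |st f L T t| ^ (2 * M) ≤
      4 ^ (2 * M) * (Bz K1 W a U1 U2 t ^ (2 * M) + (K1 * Q) ^ (2 * M) +
        ‖Er (fc f) W a X t‖ ^ (2 * M) + ‖DP (cn (fc f) a X) X t‖ ^ (2 * M)) := by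
    intro t ht
    have h6 := hpt t ht.1 ht.2
    have h7 : |st f L T t| ≤ Bz K1 W a U1 U2 t + K1 * Q + ‖Er (fc f) W a X t‖ +
        ‖DP (cn (fc f) a X) X t‖ := by
      have h8 := Complex.abs_re_le_norm (DP (cn (fc f) a X) X t)
      have e : st f L T t = (SZ f a t - L * (∫ x, f x) + (DP (cn (fc f) a X) X t).re) -
          (DP (cn (fc f) a X) X t).re := by
        unfold st
        ring
      rw [e]
      refine (abs_sub _ _).trans ?_
      exact add_le_add h6 h8
    exact (pow_le_pow_left₀ (abs_nonneg _) h7 _).trans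
      (four_pow (hBz0 t) (by positivity) (norm_nonneg _) (norm_nonneg _) _)
  have hc1 : Continuous fun t => Bz K1 W a U1 U2 t ^ (2 * M) := (Bz_cont _ _ _ _ _).pow _
  have hc3 : Continuous fun t => ‖Er (fc f) W a X t‖ ^ (2 * M) := by
    have : Continuous (Er (fc f) W a X) := DP_cont _ _
    exact this.norm.pow _
  have hc4 : Continuous fun t => ‖DP (cn (fc f) a X) X t‖ ^ (2 * M) := (DP_cont _ _).norm.pow _
  have hle : T + ℓ ≤ 2 * T - ℓ := by linarith
  -- the four integrals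
  have b1 := h2 K1 T U1 U2 L W a (T + ℓ) (2 * T - ℓ) hK1.le hTT2 g1 g4 hL hW0 hWL haL hle
  have b1' : ∫ t in (T + ℓ)..(2 * T - ℓ), Bz K1 W a U1 U2 t ^ (2 * M) ≤
      K1 ^ (2 * M) * (C2 * 2 ^ (2 * M)) * T := by
    refine b1.trans (le_of_le_of_eq (b := K1 ^ (2 * M) * (C2 * T * 2 ^ (2 * M))) ?_ (by ring))
    gcongr
    linarith
  have hXpos : (1 : ℝ) ≤ (X : ℝ) := by exact_mod_cast hX1
  have hXM : (1 : ℝ) ≤ (X : ℝ) ^ M := one_le_pow₀ hXpos
  have hFX : 8 * (X : ℝ) ^ M * (1 + Real.log ((X : ℝ) ^ M)) ≤ T := by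
    have k1 := Real.log_le_sub_one_of_pos (by linarith : (0 : ℝ) < (X : ℝ) ^ M)
    have k2 : 8 * (X : ℝ) ^ M * (1 + Real.log ((X : ℝ) ^ M)) ≤ 8 * (X : ℝ) ^ (2 * M) := by
      have e : (X : ℝ) ^ (2 * M) = (X : ℝ) ^ M * (X : ℝ) ^ M := by ring
      rw [e]
      nlinarith
    have h9 : 8 ≤ Real.sqrt T := by
      rw [show (8 : ℝ) = Real.sqrt 64 by
        rw [show (64 : ℝ) = 8 ^ 2 by norm_num, Real.sqrt_sq (by norm_num)]]
      exact Real.sqrt_le_sqrt hT64
    have h10 : Real.sqrt T ^ 2 = T := Real.sq_sqrt hT0.le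
    nlinarith
  have b3 := h3 a W X M (T + ℓ) (2 * T - ℓ) ha hW hX1 (by
    refine hlX.trans (le_of_eq ?_)
    have : UP L T = 2 * W * (2 * Real.pi * a) := rfl
    rw [this]
    ring) hle
  have b4 := dp_mom (cn_Pc (fc f) a X) M hle
  have hF : (2 * T - ℓ - (T + ℓ)) + 8 * (X : ℝ) ^ M * (1 + Real.log ((X : ℝ) ^ M)) ≤ 2 * T := by
    linarith
  have hVV0 : 0 ≤ VV (cn (fc f) a X) (PX X) := Finset.sum_nonneg fun p _ => by positivity
  have hV0 : 0 ≤ V := hVV0.trans hV
  have b3' : ∫ t in (T + ℓ)..(2 * T - ℓ), ‖Er (fc f) W a X t‖ ^ (2 * M) ≤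
      6 * K3 ^ M * M.factorial * T := by
    refine b3.trans (le_of_le_of_eq (b := 3 * K3 ^ M * M.factorial * (2 * T)) ?_ (by ring))
    exact mul_le_mul_of_nonneg_left hF (by positivity)
  have b4' : ∫ t in (T + ℓ)..(2 * T - ℓ), ‖DP (cn (fc f) a X) X t‖ ^ (2 * M) ≤
      2 * M.factorial * V ^ M * T := by
    refine b4.trans (le_of_le_of_eq (b := (2 * T) * (M.factorial * V ^ M)) ?_ (by ring))
    gcongr
  have b2' : ∫ _t in (T + ℓ)..(2 * T - ℓ), (K1 * Q) ^ (2 * M) ≤ (3 * K1) ^ (2 * M) * T := by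
    rw [intervalIntegral.integral_const, smul_eq_mul, mul_comm]
    have : K1 * Q ≤ 3 * K1 := by nlinarith
    gcongr
    linarith
  have hmain : ∫ t in (T + ℓ)..(2 * T - ℓ), |st f L T t| ^ (2 * M) ≤
      4 ^ (2 * M) * (K1 ^ (2 * M) * (C2 * 2 ^ (2 * M)) * T + (3 * K1) ^ (2 * M) * T +
        6 * K3 ^ M * M.factorial * T + 2 * M.factorial * V ^ M * T) := by
    refine (intervalIntegral.integral_mono_on hle ?_ ?_ hpt2).trans ?_
    · apply ContinuousOn.intervalIntegrable
      rw [Set.uIcc_of_le hle]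
      exact ((hcst.mono (Set.Icc_subset_Icc (by linarith) (by linarith))).abs).pow _
    · exact Continuous.intervalIntegrable (continuous_const.mul
        (((hc1.add continuous_const).add hc3).add hc4)) _ _
    · rw [intervalIntegral.integral_const_mul, intervalIntegral.integral_add,
        intervalIntegral.integral_add, intervalIntegral.integral_add]
      · refine mul_le_mul_of_nonneg_left ?_ (by positivity)
        linarith
      · exact hc1.intervalIntegrable _ _
      · exact intervalIntegrable_const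
      · exact (hc1.add continuous_const).intervalIntegrable _ _
      · exact hc3.intervalIntegrable _ _
      · exact ((hc1.add continuous_const).add hc3).intervalIntegrable _ _
      · exact hc4.intervalIntegrable _ _
  refine hmain.trans ?_
  have hVM : 0 ≤ V ^ M := pow_nonneg hV0 _
  set A := K1 ^ (2 * M) * (C2 * 2 ^ (2 * M)) + (3 * K1) ^ (2 * M) +
    6 * K3 ^ M * M.factorial with hA
  have hA0 : 0 ≤ A := by positivity
  have e5 : 4 ^ (2 * M) * (K1 ^ (2 * M) * (C2 * 2 ^ (2 * M)) * T + (3 * K1) ^ (2 * M) * T +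
        6 * K3 ^ M * M.factorial * T + 2 * M.factorial * V ^ M * T) =
      (4 : ℝ) ^ (2 * M) * T * (A + 2 * M.factorial * V ^ M) := by
    rw [hA]; ring
  have e6 : 4 ^ (2 * M) * (A + 2 * M.factorial) * (1 + V ^ M) * T =
      (4 : ℝ) ^ (2 * M) * T * ((A + 2 * M.factorial) * (1 + V ^ M)) := by ring
  rw [e5, e6]
  refine mul_le_mul_of_nonneg_left ?_ (by positivity)
  have hfac : (0 : ℝ) ≤ M.factorial := Nat.cast_nonneg _
  nlinarith [mul_nonneg hA0 hVM]

/-- **the moments are bounded** -/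
theorem st_mom {f : ℝ → ℝ} (hf : CC (fc f)) (m : ℕ) {T L : ℕ → ℝ} (hT : Tendsto T atTop atTop)
    (hL : Tendsto L atTop atTop) (hLT : Tendsto (fun n => L n / Real.log (T n)) atTop (𝓝 0)) :
    ∃ C : ℝ, 0 < C ∧ ∀ᶠ n in atTop,
      (1 / T n) * ∫ t in (T n)..(2 * T n), |st f (L n) (T n) t| ^ (2 * (m + 1)) ≤ C := by
  obtain ⟨C1, T1, hC1, hT1, h1⟩ := mid_mom hf m
  obtain ⟨C2, R, hC2, hR0, h2⟩ := st_triv hf
  obtain ⟨R', hR'0, hR'⟩ := exists_R hf
  have hpi := Real.pi_gt_three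
  have haT := a_top hL hLT hT
  have hWT := W_top hL
  have hv0 : 0 ≤ vr (fc f) := integral_nonneg fun ξ => by positivity
  set V := 2 * vr (fc f) + 1 with hV
  refine ⟨C1 * (1 + V ^ (m + 1)) + 2 * C2 ^ (2 * (m + 1)), by positivity, ?_⟩
  have hlogs : Tendsto (fun n => Real.log (T n) ^ (2 * (m + 1) + 1) / T n) atTop (𝓝 0) :=
    (Real.isLittleO_pow_log_id_atTop.tendsto_div_nhds_zero).comp hT
  have hLogT := hT.eventually_gt_atTop 1
  have hWL := ((WL_zero hL).const_mul (8 * ((2 * m + 1 : ℕ) + 1 : ℝ)))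
  rw [mul_zero] at hWL
  have hU : ∀ᶠ n in atTop, 16 ≤ UP (L n) (T n) := by
    filter_upwards [haT.eventually_ge_atTop 1, hWT.eventually_ge_atTop 8] with n g1 g2
    unfold UP
    have : 1 ≤ 2 * Real.pi * aP (L n) (T n) := by nlinarith
    nlinarith
  filter_upwards [hT.eventually_ge_atTop T1, hT.eventually_ge_atTop 64, hL.eventually_ge_atTop 1,
    haT.eventually_ge_atTop (R + 1), hWT.eventually_ge_atTop 1,
    hWL.eventually_le_const (u := 1) (by norm_num), hU,
    (LW_zero hL).eventually_le_const (u := 1) (by norm_num), X_ev hT hL (2 * (m + 1)),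
    VV_ev hf hT hL hLT, hLT.eventually_le_const (u := 1) (by norm_num),
    hlogs.eventually_le_const (u := 1) (by norm_num), hT.eventually_ge_atTop (R' + 3)]
    with n g1 g2 g3 g4 g5 g6 g7 g8 g9 g10 g11 g12 g13
  have hT0 : 0 < T n := by linarith
  have hl : 0 < Real.log (T n) := Real.log_pos (by linarith)
  have h2l := two_log_le (x := T n) (by linarith)
  have hL0 : 0 < L n := by linarith
  have g6' : 8 * ((2 * m + 1 : ℕ) + 1) * WP (L n) ≤ L n := by
    rw [← mul_div_assoc, div_le_iff₀ hL0] at g6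
    linarith
  have g11' : L n ≤ Real.log (T n) := by
    rw [div_le_one hl] at g11
    exact g11
  have hmid := h1 (T n) (L n) V g1 g2 g3 (by linarith) g5 g6' g7 g8 g9 g10
  have htr : ∀ t, T n ≤ t → t ≤ 2 * T n → |st f (L n) (T n) t| ≤ C2 * Real.log (T n) :=
    fun t => h2 (L n) (T n) t (by linarith) hL0.le g11' g4
  have hcst := st_cont hf hR' (by linarith : 1 ≤ aP (L n) (T n)) g13
  set ℓ := Real.log (T n) with hℓ
  set τ := T n with hτ
  set F : ℝ → ℝ := fun t => |st f (L n) τ t| ^ (2 * (m + 1)) with hF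
  have hi : ∀ x y, τ ≤ x → x ≤ y → y ≤ 2 * τ → IntervalIntegrable F volume x y := by
    intro x y hx hxy hy
    apply ContinuousOn.intervalIntegrable
    rw [Set.uIcc_of_le hxy]
    exact ((hcst.mono (Set.Icc_subset_Icc hx hy)).abs).pow _
  have hsm : ∀ x y, τ ≤ x → x ≤ y → y ≤ 2 * τ → ∫ t in x..y, F t ≤
      (y - x) * (C2 * ℓ) ^ (2 * (m + 1)) := by
    intro x y hx hxy hy
    have h5 : ∫ t in x..y, F t ≤ ∫ _t in x..y, (C2 * ℓ) ^ (2 * (m + 1)) := by
      refine intervalIntegral.integral_mono_on hxy (hi x y hx hxy hy) intervalIntegrable_const ?_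
      intro t ht
      exact pow_le_pow_left₀ (abs_nonneg _) (htr t (by linarith [ht.1]) (by linarith [ht.2])) _
    rwa [intervalIntegral.integral_const, smul_eq_mul] at h5
  have hsp1 := intervalIntegral.integral_add_adjacent_intervals
    (hi τ (τ + ℓ) le_rfl (by linarith) (by linarith))
    (hi (τ + ℓ) (2 * τ - ℓ) (by linarith) (by linarith) (by linarith))
  have hsp2 := intervalIntegral.integral_add_adjacent_intervals
    (hi τ (2 * τ - ℓ) le_rfl (by linarith) (by linarith))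
    (hi (2 * τ - ℓ) (2 * τ) (by linarith) (by linarith) le_rfl)
  have e1 := hsm τ (τ + ℓ) le_rfl (by linarith) (by linarith)
  have e2 := hsm (2 * τ - ℓ) (2 * τ) (by linarith) (by linarith) le_rfl
  have e3 : 2 * ℓ * (C2 * ℓ) ^ (2 * (m + 1)) ≤ 2 * C2 ^ (2 * (m + 1)) * τ := by
    rw [div_le_one hT0] at g12
    have e4 : 2 * ℓ * (C2 * ℓ) ^ (2 * (m + 1)) = 2 * C2 ^ (2 * (m + 1)) * ℓ ^ (2 * (m + 1) + 1) := by
      rw [mul_pow]; ring
    rw [e4]
    exact mul_le_mul_of_nonneg_left g12 (by positivity)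
  rw [one_div, inv_mul_le_iff₀ hT0]
  show ∫ t in τ..(2 * τ), F t ≤ _
  rw [← hsp2, ← hsp1]
  have hmid' : ∫ t in (τ + ℓ)..(2 * τ - ℓ), F t ≤ C1 * (1 + V ^ (m + 1)) * τ := hmid
  nlinarith

end Pool.Agent.Q278.KM
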